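import Pool.Agent.Helper74.WH.Merge

/-!
# All generators are odd
-/

set_option autoImplicit false

namespace Pool.Agent.Helper74.WH

open Finset

variable {P : ℤ → Prop} {G E : Finset ℤ}

/-- elements with only one generator -/
theorem multiple {K : Finset ℤ} (add : ∀ x y, P x → P y → P (x + y))
    (nonneg : ∀ x, P x → 0 ≤ x) (hK : ∀ q ∈ K, P q) (hgen : ∀ s, P s → s = 0 ∨ ∃ q ∈ K, P (s - q))
    {d : ℤ} (hd : 0 < d) (hdK : d ∈ K) : ∀ (n : ℕ) (s : ℤ), s ≤ n → P s →
      (∀ q ∈ K, q ≠ d → ¬ P (s - q)) → ∃ γ : ℤ, 0 ≤ γ ∧ s = γ * d := by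
  intro n
  induction n with
  | zero =>
    intro s hs hP _
    have := nonneg s hP
    exact ⟨0, le_rfl, by push_cast at hs; omega⟩
  | succ n ih =>
    intro s hs hP hno
    rcases hgen s hP with h | ⟨q, hq, hqP⟩
    · exact ⟨0, le_rfl, by omega⟩
    · have hqd : q = d := by
        by_contra h
        exact hno q hq h hqP
      subst hqd
      obtain ⟨γ, hγ, hs'⟩ := ih (s - q) (by push_cast at hs; omega) hqP fun q' hq' hne h => by
        refine hno q' hq' hne ?_
        have h1 := add _ _ h (hK q hdK)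
        have e1 : s - q - q' + q = s - q' := by ring
        rwa [e1] at h1
      exact ⟨γ + 1, by omega, by linear_combination hs'⟩

/-- An odd number takes at most `|K| - 1` classes if all generators are odd. -/
theorem allOdd {K : Finset ℤ} (C : Ctx P G E) (hK : ∀ q ∈ K, P q ∧ Odd q)
    (hgen : ∀ s, P s → s = 0 ∨ ∃ q ∈ K, P (s - q)) {a d q₀ : ℤ} (ha : a ∈ K) (hd : d ∈ K)
    (hq : q₀ ∈ K) (ha0 : 0 < a) (had : a < d) (hqa : q₀ ≠ a) (hqd : q₀ ≠ d)
    (h2a : 2 * a ∈ E) {f : ℤ} (hf : ¬ P f) (hodd : Odd f) :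
    (Bel P G f).card ≤ (K.card - 1) * E.card := by
  classical
  have had' : a ≠ d := had.ne
  have Pa := (hK a ha).1
  have Pd := (hK d hd).1
  rw [← card_erase_of_mem hd, ← card_product]
  refine card_le_of_rel (fun z (l : ℤ × ℤ) => (l.1 = a ∧ l.2 = f - z - a) ∨
    (l.1 ≠ a ∧ ¬ P (f - z - a) ∧ l.2 = f - z - l.1) ∨
    (l.1 = q₀ ∧ ∃ γ : ℤ, 3 ≤ γ ∧ f - z = γ * d ∧ l.2 = (γ - 2) * d + a) ∨
    (l.1 = q₀ ∧ f - z = d ∧ l.2 = 2 * a)) (fun z hz => ?_) ?_
  · obtain ⟨hzG, hzP⟩ := mem_Bel.mp hz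
    have hzo : Odd (f - z) := hodd.sub_even ((C.mG _).mp hzG).2.1
    by_cases k1 : P (f - z - a)
    · exact ⟨(a, f - z - a), mem_product.mpr ⟨mem_erase.mpr ⟨had', ha⟩,
        C.lab hf hzG Pa k1 (hzo.sub_odd (hK a ha).2) (by ring)⟩, Or.inl ⟨rfl, rfl⟩⟩
    · by_cases k2 : ∃ q ∈ K, q ≠ d ∧ P (f - z - q)
      · obtain ⟨q, hqK, hqd, hqP⟩ := k2
        have hqa : q ≠ a := fun h => k1 (h ▸ hqP)
        exact ⟨(q, f - z - q), mem_product.mpr ⟨mem_erase.mpr ⟨hqd, hqK⟩,
          C.lab hf hzG (hK q hqK).1 hqP (hzo.sub_odd (hK q hqK).2) (by ring)⟩,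
          Or.inr (Or.inl ⟨hqa, k1, rfl⟩)⟩
      · push Not at k2
        obtain ⟨γ, hγ, hs⟩ := multiple C.add C.nonneg (fun q hq => (hK q hq).1) hgen
          (ha0.trans had) hd (f - z).toNat (f - z) (Int.self_le_toNat _) hzP
          fun q hq hqd => k2 q hq hqd
        have hγo : γ % 2 = 1 := by
          have q1 := mul_odd_mod (β := γ) (hK d hd).2
          have q2 := Int.odd_iff.mp hzo
          rw [hs] at q2
          omega
        rcases lt_or_ge γ 3 with h3 | h3
        · have h1 : γ = 1 := by omega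
          rw [h1, one_mul] at hs
          exact ⟨(q₀, 2 * a), mem_product.mpr ⟨mem_erase.mpr ⟨hqd, hq⟩, h2a⟩,
            Or.inr (Or.inr (Or.inr ⟨rfl, hs, rfl⟩))⟩
        · refine ⟨(q₀, (γ - 2) * d + a), mem_product.mpr ⟨mem_erase.mpr ⟨hqd, hq⟩, ?_⟩,
            Or.inr (Or.inr (Or.inl ⟨rfl, γ, h3, hs, rfl⟩))⟩
          have mul : ∀ n : ℕ, P (n * d) := fun n => by
            induction n with
            | zero => simpa using C.zero
            | succ n ih =>
              push_cast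
              rw [add_mul, one_mul]
              exact C.add _ _ ih Pd
          have mul' : ∀ n : ℤ, 0 ≤ n → P (n * d) := fun n hn => by
            obtain ⟨m, rfl⟩ := Int.eq_ofNat_of_zero_le hn
            exact mul m
          have h4 : (γ - 1) * d ∈ E := by
            refine C.lab hf hzG Pd (mul' _ (by omega)) ?_ (by linear_combination hs)
            have q1 := mul_odd_mod (β := γ - 1) (hK d hd).2
            rw [Int.even_iff]
            omega
          obtain ⟨-, -, w, hw, hlt⟩ := (C.mE _).mp h4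
          refine (C.mE _).mpr ⟨?_, C.add _ _ (mul' _ (by omega)) Pa, w, hw, ?_⟩
          · have q1 := mul_odd_mod (β := γ - 2) (hK d hd).2
            have q2 := Int.odd_iff.mp (hK a ha).2
            rw [Int.even_iff]
            omega
          · have e1 : (γ - 1) * d = (γ - 2) * d + d := by ring
            omega
  · -- the last generator is not needed
    have key : ∀ (z : ℤ) (l : ℤ × ℤ), ¬ P (f - z - a) → l.2 = f - z - l.1 → l.1 = q₀ →
        (∃ s, P s ∧ l.2 = s + a) → False := by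
      rintro z l h1 h2 h3 ⟨s, hs, h4⟩
      apply h1
      have h5 := C.add _ _ hs (hK q₀ hq).1
      have e1 : s + q₀ = f - z - a := by rw [h3] at h2; linear_combination h2 - h4
      rwa [e1] at h5
    have mul : ∀ n : ℕ, P (n * d) := fun n => by
      induction n with
      | zero => simpa using C.zero
      | succ n ih =>
        push_cast
        rw [add_mul, one_mul]
        exact C.add _ _ ih Pd
    have mul' : ∀ n : ℤ, 0 ≤ n → P (n * d) := fun n hn => by
      obtain ⟨m, rfl⟩ := Int.eq_ofNat_of_zero_le hn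
      exact mul m
    have hd0 : 0 < d := ha0.trans had
    rintro z z' l (⟨u1, u2⟩ | ⟨u1, u2, u3⟩ | ⟨u1, γ, u2, u3, u4⟩ | ⟨u1, u2, u3⟩)
      (⟨v1, v2⟩ | ⟨v1, v2, v3⟩ | ⟨v1, γ', v2, v3, v4⟩ | ⟨v1, v2, v3⟩)
    · omega
    · exact absurd u1 v1
    · exact absurd (v1.symm.trans u1) hqa
    · exact absurd (v1.symm.trans u1) hqa
    · exact absurd v1 u1
    · omega
    · exact (key z l u2 u3 v1 ⟨_, mul' (γ' - 2) (by omega), v4⟩).elim
    · exact (key z l u2 u3 v1 ⟨a, Pa, by omega⟩).elim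
    · exact absurd (u1.symm.trans v1) hqa
    · exact (key z' l v2 v3 u1 ⟨_, mul' (γ - 2) (by omega), u4⟩).elim
    · have h1 : (γ - γ') * d = 0 := by linear_combination v4 - u4
      rcases mul_eq_zero.mp h1 with h | h
      · have : γ = γ' := by omega
        subst this
        omega
      · omega
    · exfalso
      have h1 : 1 * d ≤ (γ - 2) * d := mul_le_mul_of_nonneg_right (by omega) hd0.le
      omega
    · exact absurd (u1.symm.trans v1) hqa
    · exact (key z' l v2 v3 u1 ⟨a, Pa, by omega⟩).elim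
    · exfalso
      have h1 : 1 * d ≤ (γ' - 2) * d := mul_le_mul_of_nonneg_right (by omega) hd0.le
      omega
    · omega

end Pool.Agent.Helper74.WH
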