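import Mathlib

/-!
# Counting the gaps of the half of a numerical semigroup
-/

set_option autoImplicit false

namespace Pool.Agent.Helper74.WH

open Finset

/-- `P` is a numerical semigroup, `G` is the set of its positive even gaps and `E` the set of its
even elements below the largest even gap. -/
structure Ctx (P : ℤ → Prop) (G E : Finset ℤ) : Prop where
  zero : P 0
  add : ∀ x y, P x → P y → P (x + y)
  nonneg : ∀ x, P x → 0 ≤ x
  big : ∃ N, ∀ x, N ≤ x → P x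
  mG : ∀ z, z ∈ G ↔ 0 < z ∧ Even z ∧ ¬ P z
  mE : ∀ e, e ∈ E ↔ Even e ∧ P e ∧ ∃ z ∈ G, e < z

/-- pseudo-Frobenius numbers -/
def IsPF (P : ℤ → Prop) (f : ℤ) : Prop := ¬ P f ∧ ∀ s, P s → s ≠ 0 → P (f + s)

theorem exists_pf {P : ℤ → Prop} (zero : P 0) (add : ∀ x y, P x → P y → P (x + y))
    (nonneg : ∀ x, P x → 0 ≤ x) (big : ∃ N, ∀ x, N ≤ x → P x) {z : ℤ} (hz : ¬ P z) :
    ∃ f, IsPF P f ∧ P (f - z) := by
  obtain ⟨N, hN⟩ := big
  obtain ⟨s, ⟨hs, hzs⟩, hmax⟩ := Int.exists_greatest_of_bdd (P := fun s => P s ∧ ¬ P (z + s))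
    ⟨N - z, fun s hs => by
      by_contra h
      exact hs.2 (hN _ (by omega))⟩ ⟨0, zero, by rwa [add_zero]⟩
  refine ⟨z + s, ⟨hzs, fun s' hs' h0 => ?_⟩, by rwa [add_sub_cancel_left]⟩
  by_contra h
  have h1 := hmax (s + s') ⟨add _ _ hs hs', by rwa [← add_assoc]⟩
  have h2 := nonneg _ hs'
  omega

variable {P : ℤ → Prop} {G E : Finset ℤ}

theorem Ctx.exists_pf (C : Ctx P G E) {z : ℤ} (hz : ¬ P z) : ∃ f, IsPF P f ∧ P (f - z) :=
  WH.exists_pf C.zero C.add C.nonneg C.big hz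

/-- an element of `E` -/
theorem Ctx.lab (C : Ctx P G E) {f z q e : ℤ} (hf : ¬ P f) (hz : z ∈ G) (hq : P q) (he : P e)
    (hev : Even e) (h : f = z + q + e) : e ∈ E := by
  obtain ⟨hz0, hze, hzP⟩ := (C.mG z).mp hz
  refine (C.mE e).mpr ⟨hev, he, z + e, (C.mG _).mpr ⟨?_, hze.add hev, fun hP => hf ?_⟩, by omega⟩
  · have := C.nonneg e he
    omega
  · have := C.add _ _ hP hq
    rw [h]
    have e1 : z + q + e = z + e + q := by ring
    rwa [e1]

/-- one class -/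
theorem Ctx.cls (C : Ctx P G E) {f q : ℤ} (hf : ¬ P f) (hq : P q) (hpar : Even (f - q))
    (A : Finset ℤ) (hA : A ⊆ G) (h : ∀ z ∈ A, P (f - z - q)) : A.card ≤ E.card := by
  refine card_le_card_of_injOn (fun z => f - z - q) (fun z hz => ?_) (fun z _ z' _ hzz => ?_)
  · refine C.lab hf (hA hz) hq (h z hz) ?_ (by ring)
    have h1 := ((C.mG z).mp (hA hz)).2.1
    have e1 : f - z - q = (f - q) - z := by ring
    show Even (f - z - q)
    rw [e1]
    exact hpar.sub h1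
  · have : f - z - q = f - z' - q := hzz
    omega

open Classical in
/-- the gaps below a number -/
noncomputable def Bel (P : ℤ → Prop) (G : Finset ℤ) (f : ℤ) : Finset ℤ :=
  G.filter fun z => P (f - z)

theorem mem_Bel {f z : ℤ} : z ∈ Bel P G f ↔ z ∈ G ∧ P (f - z) := by
  classical
  exact mem_filter

theorem Bel_sub (f : ℤ) : Bel P G f ⊆ G := fun z hz => (mem_Bel.mp hz).1

/-- an even number takes one class -/
theorem Ctx.even (C : Ctx P G E) {f : ℤ} (hf : ¬ P f) (hev : Even f) :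
    (Bel P G f).card ≤ E.card :=
  C.cls hf C.zero (by rwa [sub_zero]) _ (Bel_sub f) fun _ hz => by
    rw [sub_zero]
    exact (mem_Bel.mp hz).2

/-- an odd number takes as many classes as there are odd generators -/
theorem Ctx.perf (C : Ctx P G E) {Q : Finset ℤ} (hQ : ∀ q ∈ Q, P q ∧ Odd q)
    (H : ∀ z, P z → Odd z → ∃ q ∈ Q, P (z - q)) (hne : Q.Nonempty) {f : ℤ} (hf : ¬ P f) :
    (Bel P G f).card ≤ Q.card * E.card := by
  classical
  rcases Int.even_or_odd f with hev | hodd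
  · refine (C.even hf hev).trans ?_
    exact Nat.le_mul_of_pos_left _ hne.card_pos
  · have hcov : Bel P G f ⊆ Q.biUnion fun q => (Bel P G f).filter fun z => P (f - z - q) := by
      intro z hz
      obtain ⟨hzG, hzP⟩ := mem_Bel.mp hz
      obtain ⟨q, hq, hqP⟩ := H _ hzP (hodd.sub_even ((C.mG z).mp hzG).2.1)
      exact mem_biUnion.mpr ⟨q, hq, mem_filter.mpr ⟨hz, hqP⟩⟩
    refine (card_le_card hcov).trans (card_biUnion_le_card_mul _ _ _ fun q hq => ?_)
    refine C.cls hf (hQ q hq).1 (hodd.sub_odd (hQ q hq).2) _ ?_ fun z hz => (mem_filter.mp hz).2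
    exact (filter_subset _ _).trans (Bel_sub f)

/-- the number of even gaps -/
theorem gen {Φ : Finset ℤ} {m : ℕ} (hΦ : ∀ f ∈ Φ, (Bel P G f).card ≤ m)
    (hcov : ∀ z ∈ G, ∃ f ∈ Φ, P (f - z)) : G.card ≤ Φ.card * m := by
  classical
  have h1 : G ⊆ Φ.biUnion fun f => Bel P G f := by
    intro z hz
    obtain ⟨f, hf, hP⟩ := hcov z hz
    exact mem_biUnion.mpr ⟨f, hf, mem_Bel.mpr ⟨hz, hP⟩⟩
  exact (card_le_card h1).trans (card_biUnion_le_card_mul _ _ _ hΦ)

/-- two numbers -/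
theorem cover2 {f₁ f₂ : ℤ} (hcov : ∀ z ∈ G, P (f₁ - z) ∨ P (f₂ - z)) :
    G.card ≤ (Bel P G f₁).card + (Bel P G f₂).card := by
  classical
  refine (card_le_card (t := Bel P G f₁ ∪ Bel P G f₂) fun z hz => ?_).trans (card_union_le _ _)
  rcases hcov z hz with h | h
  · exact mem_union_left _ (mem_Bel.mpr ⟨hz, h⟩)
  · exact mem_union_right _ (mem_Bel.mpr ⟨hz, h⟩)

end Pool.Agent.Helper74.WH
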