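import Mathlib

/-!
# Numerical semigroups, their halves and the inequality of Wilf: definitions
-/

set_option autoImplicit false

namespace Pool.Agent.Helper74.WH

/-- The minimal generators: the nonzero elements which are not sums of two nonzero elements. -/
def minGens (S : AddSubmonoid ℕ) : Set ℕ :=
  {x | x ∈ S ∧ x ≠ 0 ∧ ∀ y ∈ S, ∀ z ∈ S, y ≠ 0 → z ≠ 0 → y + z ≠ x}

/-- The embedding dimension: the number of minimal generators. -/
noncomputable def embDim (S : AddSubmonoid ℕ) : ℕ := (minGens S).ncard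

/-- The genus: the number of gaps. -/
noncomputable def genus (S : AddSubmonoid ℕ) : ℕ := {x : ℕ | x ∉ S}.ncard

/-- The Frobenius number: the largest gap, or `-1` if there is none. -/
noncomputable def frob (S : AddSubmonoid ℕ) : ℤ := (sInf {c : ℕ | ∀ x, c ≤ x → x ∈ S} : ℕ) - 1

/-- The inequality of Wilf. -/
def Wilf (S : AddSubmonoid ℕ) : Prop :=
  (embDim S : ℤ) * genus S ≤ (embDim S - 1) * (frob S + 1)

/-- The half of `S`. -/
def half (S : AddSubmonoid ℕ) : AddSubmonoid ℕ where
  carrier := {x | 2 * x ∈ S}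
  zero_mem' := by
    show 2 * 0 ∈ S
    exact S.zero_mem
  add_mem' {x y} hx hy := by
    show 2 * (x + y) ∈ S
    rw [mul_add]
    exact S.add_mem hx hy

theorem mem_half {S : AddSubmonoid ℕ} {x : ℕ} : x ∈ half S ↔ 2 * x ∈ S := Iff.rfl

/-- membership of an integer -/
def Zm (S : AddSubmonoid ℕ) (z : ℤ) : Prop := ∃ s ∈ S, (s : ℤ) = z

/-- The multiplicity: the smallest nonzero element. -/
noncomputable def mult (S : AddSubmonoid ℕ) : ℕ := sInf {x : ℕ | x ∈ S ∧ x ≠ 0}

/-- The pseudo-Frobenius numbers: the integers `f` not in `S` with `f + s` in `S` for all nonzero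
elements `s` of `S`. -/
def pseudoFrob (S : AddSubmonoid ℕ) : Set ℤ :=
  {f : ℤ | ¬ Zm S f ∧ ∀ s ∈ S, s ≠ 0 → Zm S (f + s)}

/-- Symmetric numerical semigroups: `frob S - x` is in `S` for each integer `x` not in `S`. -/
def Symmetric (S : AddSubmonoid ℕ) : Prop := ∀ x : ℤ, ¬ Zm S x → Zm S (frob S - x)

end Pool.Agent.Helper74.WH
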