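import Pool.Agent.Helper74.WH.Merge

/-!
# Five minimal generators of the half
-/

set_option autoImplicit false

namespace Pool.Agent.Helper74.WH

open Finset

/-- minimal generators of the even part -/
def MG (P : ℤ → Prop) (w : ℤ) : Prop := P w ∧ Even w ∧ w ≠ 0 ∧
  ∀ x y, P x → P y → Even x → Even y → x ≠ 0 → y ≠ 0 → x + y ≠ w

/-- three odd minimal generators -/
structure Tri (a b c : ℤ) : Prop where
  a0 : 0 < a
  ab : a < b
  bc : b < c
  oa : Odd a
  ob : Odd b
  oc : Odd c
  mb : ∀ α : ℤ, 0 ≤ α → b ≠ α * a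
  mc : ∀ α β : ℤ, 0 ≤ α → 0 ≤ β → c ≠ α * a + β * b

/-- sums of at least four generators -/
def Fo (a b c w : ℤ) : Prop :=
  ∃ α β γ : ℤ, 0 ≤ α ∧ 0 ≤ β ∧ 0 ≤ γ ∧ 4 ≤ α + β + γ ∧ w = α * a + β * b + γ * c

variable {a b c : ℤ}

theorem Tri.low (T : Tri a b c) {α β γ : ℤ} (hβ : 0 ≤ β) (hγ : 0 ≤ γ) :
    (α + β + γ) * a ≤ α * a + β * b + γ * c := by
  have h1 := mul_nonneg hβ (sub_nonneg.mpr T.ab.le)
  have h2 := mul_nonneg hγ (sub_nonneg.mpr (T.ab.trans T.bc).le)
  linarith

/-- at least `n` generators -/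
theorem Tri.low' (T : Tri a b c) {α β γ : ℤ} (n : ℤ) (hβ : 0 ≤ β) (hγ : 0 ≤ γ)
    (hn : n ≤ α + β + γ) : n * a ≤ α * a + β * b + γ * c :=
  (mul_le_mul_of_nonneg_right hn T.a0.le).trans (T.low hβ hγ)

theorem Tri.mg (T : Tri a b c) {w : ℤ} (hw : Cmb a b c w) (he : Even w) (h0 : w ≠ 0)
    (hK : ¬ Fo a b c w) : MG (Cmb a b c) w := by
  have two : ∀ x, Cmb a b c x → Even x → x ≠ 0 →
      ∃ α β γ : ℤ, 0 ≤ α ∧ 0 ≤ β ∧ 0 ≤ γ ∧ 2 ≤ α + β + γ ∧ x = α * a + β * b + γ * c := by
    rintro x ⟨α, β, γ, hα, hβ, hγ, hx⟩ hev hx0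
    refine ⟨α, β, γ, hα, hβ, hγ, ?_, hx⟩
    have q1 := mul_odd_mod (β := α) T.oa
    have q2 := mul_odd_mod (β := β) T.ob
    have q3 := mul_odd_mod (β := γ) T.oc
    have q4 := Int.even_iff.mp hev
    rw [hx] at q4
    by_contra h
    have h1 : α + β + γ = 0 := by omega
    have hα0 : α = 0 := by omega
    have hβ0 : β = 0 := by omega
    have hγ0 : γ = 0 := by omega
    apply hx0
    rw [hx, hα0, hβ0, hγ0]
    ring
  refine ⟨hw, he, h0, fun x y hx hy hxe hye hx0 hy0 h => hK ?_⟩
  obtain ⟨α, β, γ, h1, h2, h3, h4, h5⟩ := two x hx hxe hx0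
  obtain ⟨α', β', γ', h1', h2', h3', h4', h5'⟩ := two y hy hye hy0
  exact ⟨α + α', β + β', γ + γ', by omega, by omega, by omega, by omega,
    by rw [← h, h5, h5']; ring⟩

theorem Tri.n2a (T : Tri a b c) : ¬ Fo a b c (2 * a) := by
  rintro ⟨α, β, γ, hα, hβ, hγ, h4, h⟩
  have h1 := T.low' 4 hβ hγ h4
  have := T.a0
  omega

theorem Tri.nab (T : Tri a b c) : ¬ Fo a b c (a + b) := by
  rintro ⟨α, β, γ, hα, hβ, hγ, h4, h⟩
  have := T.a0
  have := T.ab
  have := T.bc
  rcases lt_or_ge 0 β with h0 | h0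
  · have h1 := T.low' (α := α) (β := β - 1) (γ := γ) 3 (by omega) hγ (by omega)
    have e1 : α * a + (β - 1) * b + γ * c = a := by linear_combination -h
    omega
  · have hβ0 : β = 0 := by omega
    subst hβ0
    rcases lt_or_ge 0 γ with h0 | h0
    · have h1 := T.low' (α := α) (β := 0) (γ := γ - 1) 3 (by omega) (by omega) (by omega)
      have e1 : α * a + 0 * b + (γ - 1) * c = a + b - c := by linear_combination -h
      omega
    · have hγ0 : γ = 0 := by omega
      subst hγ0
      exact T.mb (α - 1) (by omega) (by linear_combination h)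

theorem Tri.k2b (T : Tri a b c) (h : Fo a b c (2 * b)) :
    ∃ α γ : ℤ, 1 ≤ α ∧ 0 ≤ γ ∧ γ ≤ 1 ∧ 4 ≤ α + γ ∧ 2 * b = α * a + γ * c := by
  obtain ⟨α, β, γ, hα, hβ, hγ, h4, h⟩ := h
  have := T.a0
  have := T.ab
  have := T.bc
  have hβ0 : β = 0 := by
    by_contra h0
    rcases lt_or_ge 0 γ with h1 | h1
    · have h2 := T.low' (α := α) (β := β - 1) (γ := γ - 1) 2 (by omega) (by omega) (by omega)
      have e1 : α * a + (β - 1) * b + (γ - 1) * c = b - c := by linear_combination -h
      omega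
    · have hγ0 : γ = 0 := by omega
      subst hγ0
      rcases lt_or_ge 1 β with h2 | h2
      · have h3 := T.low' (α := α) (β := β - 2) (γ := 0) 2 (by omega) (by omega) (by omega)
        have e1 : α * a + (β - 2) * b + 0 * c = 0 := by linear_combination -h
        omega
      · have h3 : β = 1 := by omega
        subst h3
        exact T.mb α hα (by linear_combination h)
  subst hβ0
  have hγ1 : γ ≤ 1 := by
    by_contra h0
    have h2 := T.low' (α := α) (β := 0) (γ := γ - 2) 2 (by omega) (by omega) (by omega)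
    have e1 : α * a + 0 * b + (γ - 2) * c = 2 * b - 2 * c := by linear_combination -h
    omega
  exact ⟨α, γ, by omega, hγ, hγ1, by omega, by linear_combination h⟩

theorem Tri.kac (T : Tri a b c) (h : Fo a b c (a + c)) : ∃ β : ℤ, 4 ≤ β ∧ a + c = β * b := by
  obtain ⟨α, β, γ, hα, hβ, hγ, h4, h⟩ := h
  have := T.a0
  have hγ0 : γ = 0 := by
    by_contra h0
    have h2 := T.low' (α := α) (β := β) (γ := γ - 1) 3 (by omega) (by omega) (by omega)
    have e1 : α * a + β * b + (γ - 1) * c = a := by linear_combination -h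
    omega
  subst hγ0
  have hα0 : α = 0 := by
    by_contra h0
    exact T.mc (α - 1) β (by omega) hβ (by linear_combination h)
  subst hα0
  exact ⟨β, by omega, by linear_combination h⟩

theorem Tri.kbc (T : Tri a b c) (h : Fo a b c (b + c)) : ∃ α : ℤ, 4 ≤ α ∧ b + c = α * a := by
  obtain ⟨α, β, γ, hα, hβ, hγ, h4, h⟩ := h
  have := T.a0
  have := T.ab
  have := T.bc
  have hγ0 : γ = 0 := by
    by_contra h0
    rcases lt_or_ge 1 γ with h1 | h1
    · have h2 := T.low' (α := α) (β := β) (γ := γ - 2) 2 (by omega) (by omega) (by omega)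
      have e1 : α * a + β * b + (γ - 2) * c = b - c := by linear_combination -h
      omega
    · have h2 : γ = 1 := by omega
      subst h2
      rcases lt_or_ge 0 β with h3 | h3
      · have h2 := T.low' (α := α) (β := β - 1) (γ := 0) 2 (by omega) (by omega) (by omega)
        have e1 : α * a + (β - 1) * b + 0 * c = 0 := by linear_combination -h
        omega
      · have h3 : β = 0 := by omega
        subst h3
        exact T.mb α hα (by linear_combination h)
  subst hγ0
  have hβ0 : β = 0 := by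
    by_contra h0
    exact T.mc α (β - 1) hα (by omega) (by linear_combination h)
  subst hβ0
  exact ⟨α, by omega, by linear_combination h⟩

theorem Tri.k2c (T : Tri a b c) (h : Fo a b c (2 * c)) :
    ∃ α β : ℤ, 0 ≤ α ∧ 0 ≤ β ∧ 4 ≤ α + β ∧ 2 * c = α * a + β * b := by
  obtain ⟨α, β, γ, hα, hβ, hγ, h4, h⟩ := h
  have := T.a0
  have hγ0 : γ = 0 := by
    by_contra h0
    rcases lt_or_ge 1 γ with h1 | h1
    · have h2 := T.low' (α := α) (β := β) (γ := γ - 2) 2 (by omega) (by omega) (by omega)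
      have e1 : α * a + β * b + (γ - 2) * c = 0 := by linear_combination -h
      omega
    · have h2 : γ = 1 := by omega
      subst h2
      exact T.mc α β hα hβ (by linear_combination h)
  subst hγ0
  exact ⟨α, β, hα, hβ, by omega, by linear_combination h⟩

theorem card_five {p q r s t : ℤ} (h1 : p < q) (h2 : q < r) (h3 : q < s) (h4 : r ≠ s) (h5 : r < t)
    (h6 : s < t) : ({p, q, r, s, t} : Finset ℤ).card = 5 := by
  rw [card_insert_of_notMem, card_insert_of_notMem, card_insert_of_notMem, card_insert_of_notMem,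
    card_singleton]
  all_goals
    simp only [mem_insert, mem_singleton]
    omega

/-- five minimal generators of the half -/
theorem five {f₁ f₂ β₁ γ₁ β₂ γ₂ : ℤ} (R : Tri a b c) (T : Two a b c f₁ f₂ β₁ γ₁ β₂ γ₂)
    (h₁ : Odd f₁) (h₂ : Odd f₂) : ∃ M : Finset ℤ, M.card = 5 ∧ ∀ w ∈ M, MG (Cmb a b c) w := by
  classical
  obtain ⟨x, y, X⟩ := T.herz
  have hβ := T.hβ
  have hγ := T.hγ
  have b2 := T.n₂.β0
  have g1 := T.n₁.γ0
  have x1 := X.x1
  have a0 := R.a0
  have ab := R.ab
  have bc := R.bc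
  have ea := Int.odd_iff.mp R.oa
  have eb := Int.odd_iff.mp R.ob
  have ec := Int.odd_iff.mp R.oc
  have p1 : (β₁ + γ₁) % 2 = 0 := by
    have e1 := T.n₁.eq
    have q1 := mul_odd_mod (β := β₁) R.ob
    have q2 := mul_odd_mod (β := γ₁) R.oc
    have := Int.odd_iff.mp h₁
    omega
  have p2 : (β₂ + γ₂) % 2 = 0 := by
    have e1 := T.n₂.eq
    have q1 := mul_odd_mod (β := β₂) R.ob
    have q2 := mul_odd_mod (β := γ₂) R.oc
    have := Int.odd_iff.mp h₂
    omega
  -- the consequences of the relations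
  have F1 : ∀ α γ : ℤ, 1 ≤ α → 0 ≤ γ → 2 * b = α * a + γ * c → β₁ = 1 := by
    intro α γ hα hγ' h
    by_contra h0
    exact excl T.pf₁.not T.n₁.eq (i := 2) (j := 0) (k := α) (i' := 0) (j' := γ) (by omega) g1 hα
      le_rfl hγ' (by linear_combination h)
  have F2 : ∀ α : ℤ, 1 ≤ α → b + c = α * a → γ₁ = 0 ∧ β₂ = 0 := by
    intro α hα h
    constructor
    · by_contra h0
      exact excl T.pf₁.not T.n₁.eq (i := 1) (j := 1) (k := α) (i' := 0) (j' := 0) (by omega)
        (by omega) hα le_rfl le_rfl (by linear_combination h)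
    · by_contra h0
      exact excl T.pf₂.not T.n₂.eq (i := 1) (j := 1) (k := α) (i' := 0) (j' := 0) (by omega)
        (by omega) hα le_rfl le_rfl (by linear_combination h)
  have F3 : ∀ α β : ℤ, 0 ≤ α → 0 ≤ β → 4 ≤ α + β → 2 * c = α * a + β * b → γ₂ = 1 := by
    intro α β hα hβ' h4 h
    by_contra h0
    rcases lt_or_ge 0 α with h1 | h1
    · exact excl T.pf₂.not T.n₂.eq (i := 0) (j := 2) (k := α) (i' := β) (j' := 0) b2
        (by omega) (by omega) hβ' le_rfl (by linear_combination h)
    · have h2 : α = 0 := by omega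
      subst h2
      exact T.n₂.pure β 2 (by omega) (by omega) (by omega) (by linear_combination -h)
  -- membership
  have m : ∀ α β γ : ℤ, 0 ≤ α → 0 ≤ β → 0 ≤ γ → Cmb a b c (α * a + β * b + γ * c) :=
    fun α β γ h1 h2 h3 => Cmb.mk α β γ h1 h2 h3 rfl
  have g2a : MG (Cmb a b c) (2 * a) := R.mg (Cmb.mk 2 0 0 (by omega) le_rfl le_rfl (by ring))
    (even_two_mul a) (by omega) R.n2a
  have gab : MG (Cmb a b c) (a + b) := R.mg (Cmb.mk 1 1 0 (by omega) (by omega) le_rfl (by ring))
    (R.oa.add_odd R.ob) (by omega) R.nab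
  have g2b : ¬ Fo a b c (2 * b) → MG (Cmb a b c) (2 * b) :=
    R.mg (Cmb.mk 0 2 0 le_rfl (by omega) le_rfl (by ring)) (even_two_mul b) (by omega)
  have gac : ¬ Fo a b c (a + c) → MG (Cmb a b c) (a + c) :=
    R.mg (Cmb.mk 1 0 1 (by omega) le_rfl (by omega) (by ring)) (R.oa.add_odd R.oc) (by omega)
  have gbc : ¬ Fo a b c (b + c) → MG (Cmb a b c) (b + c) :=
    R.mg (Cmb.mk 0 1 1 le_rfl (by omega) (by omega) (by ring)) (R.ob.add_odd R.oc) (by omega)
  have g2c : ¬ Fo a b c (2 * c) → MG (Cmb a b c) (2 * c) :=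
    R.mg (Cmb.mk 0 0 2 le_rfl le_rfl (by omega) (by ring)) (even_two_mul c) (by omega)
  -- two relations are not possible
  have N1 : Fo a b c (b + c) → ¬ Fo a b c (2 * c) := by
    intro k1 k2
    obtain ⟨α, hα, h⟩ := R.kbc k1
    obtain ⟨α', β', h1', h2', h3', h'⟩ := R.k2c k2
    have := (F2 α (by omega) h).2
    have := F3 α' β' h1' h2' h3' h'
    omega
  by_cases K1 : Fo a b c (2 * b)
  · -- `2 b` is not a minimal generator
    obtain ⟨α, γ, hα, hγ0, hγ1, h4, h⟩ := R.k2b K1
    have e1 := F1 α γ hα hγ0 h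
    have M1 : ¬ Fo a b c (a + c) := by
      intro k
      obtain ⟨β, hβ4, hac⟩ := R.kac k
      have k1 : 1 * a ≤ x * a := mul_le_mul_of_nonneg_right x1 a0.le
      have k2 : 1 * c ≤ (γ₂ - γ₁) * c := mul_le_mul_of_nonneg_right (by omega) (by omega)
      have k3 : 4 * b ≤ β * b := mul_le_mul_of_nonneg_right hβ4 (by omega)
      have k4 := X.rb
      rw [e1] at k4
      omega
    have M2 : ¬ Fo a b c (b + c) := by
      intro k
      obtain ⟨α', hα', h'⟩ := R.kbc k
      have := (F2 α' (by omega) h').1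
      omega
    have M3 : ¬ Fo a b c (2 * c) := by
      intro k
      obtain ⟨α', β', h1', h2', h3', h'⟩ := R.k2c k
      have := F3 α' β' h1' h2' h3' h'
      omega
    refine ⟨{2 * a, a + b, a + c, b + c, 2 * c}, card_five (by omega) (by omega) (by omega)
      (by omega) (by omega) (by omega), fun w hw => ?_⟩
    simp only [mem_insert, mem_singleton] at hw
    rcases hw with rfl | rfl | rfl | rfl | rfl
    exacts [g2a, gab, gac M1, gbc M2, g2c M3]
  by_cases K2 : Fo a b c (a + c) ∨ 2 * b = a + c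
  · have M2 : ¬ Fo a b c (b + c) := by
      intro k
      obtain ⟨α', hα', h'⟩ := R.kbc k
      obtain ⟨u1, u2⟩ := F2 α' (by omega) h'
      rcases K2 with K2 | K2
      · obtain ⟨β, hβ4, hac⟩ := R.kac K2
        have k4 := X.rb
        -- `b₁ + 1 ≤ β`
        have k5 : β₁ < β := by
          by_contra h0
          exact excl T.pf₁.not T.n₁.eq (i := β) (j := 0) (k := 1) (i' := 0) (j' := 1) (by omega) g1
            le_rfl le_rfl (by omega) (by linear_combination -hac)
        have k6 : (β₁ + 1) * b ≤ β * b := mul_le_mul_of_nonneg_right (by omega) (by omega)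
        have k1 : 1 * a ≤ x * a := mul_le_mul_of_nonneg_right x1 a0.le
        have k2 : 2 * c ≤ (γ₂ - γ₁) * c := mul_le_mul_of_nonneg_right (by omega) (by omega)
        omega
      · have := F1 1 1 le_rfl (by omega) (by linear_combination K2)
        omega
    have M3 : ¬ Fo a b c (2 * c) := by
      intro k
      obtain ⟨α', β', h1', h2', h3', h'⟩ := R.k2c k
      have u := F3 α' β' h1' h2' h3' h'
      rcases K2 with K2 | K2
      · obtain ⟨β, hβ4, hac⟩ := R.kac K2
        have k4 := X.rb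
        have k5 : β₁ < β := by
          by_contra h0
          exact excl T.pf₁.not T.n₁.eq (i := β) (j := 0) (k := 1) (i' := 0) (j' := 1) (by omega) g1
            le_rfl le_rfl (by omega) (by linear_combination -hac)
        have k6 : (β₁ + 1) * b ≤ β * b := mul_le_mul_of_nonneg_right (by omega) (by omega)
        have hx : x % 2 = 0 := by
          have q1 := mul_odd_mod (β := β₁ + 1) R.ob
          have q2 := mul_odd_mod (β := x) R.oa
          have q3 := mul_odd_mod (β := γ₂ - γ₁) R.oc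
          omega
        have k1 : 2 * a ≤ x * a := mul_le_mul_of_nonneg_right (by omega) a0.le
        have k2 : 1 * c ≤ (γ₂ - γ₁) * c := mul_le_mul_of_nonneg_right (by omega) (by omega)
        omega
      · have := F1 1 1 le_rfl (by omega) (by linear_combination K2)
        omega
    refine ⟨{2 * a, a + b, 2 * b, b + c, 2 * c}, card_five (by omega) (by omega) (by omega)
      (by omega) (by omega) (by omega), fun w hw => ?_⟩
    simp only [mem_insert, mem_singleton] at hw
    rcases hw with rfl | rfl | rfl | rfl | rfl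
    exacts [g2a, gab, g2b K1, gbc M2, g2c M3]
  · push Not at K2
    obtain ⟨K2, K3⟩ := K2
    by_cases K4 : Fo a b c (b + c)
    · refine ⟨{2 * a, a + b, 2 * b, a + c, 2 * c}, card_five (by omega) (by omega) (by omega)
        K3 (by omega) (by omega), fun w hw => ?_⟩
      simp only [mem_insert, mem_singleton] at hw
      rcases hw with rfl | rfl | rfl | rfl | rfl
      exacts [g2a, gab, g2b K1, gac K2, g2c (N1 K4)]
    · refine ⟨{2 * a, a + b, 2 * b, a + c, b + c}, card_five (by omega) (by omega) (by omega)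
        K3 (by omega) (by omega), fun w hw => ?_⟩
      simp only [mem_insert, mem_singleton] at hw
      rcases hw with rfl | rfl | rfl | rfl | rfl
      exacts [g2a, gab, g2b K1, gac K2, gbc K4]

end Pool.Agent.Helper74.WH
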