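import Mathlib

/-!
# Numerical semigroups with three generators

`R` is the set of the integers `α a + β b + γ c` with nonnegative coefficients. A pseudo-Frobenius
number is `f ∉ R` with `f + a, f + b, f + c ∈ R`. There are at most two, and if there are two then the
minimal relations of Herzog hold.
-/

set_option autoImplicit false

namespace Pool.Agent.Helper74.WH

/-- nonnegative combinations of three integers -/
def Cmb (a b c z : ℤ) : Prop :=
  ∃ α β γ : ℤ, 0 ≤ α ∧ 0 ≤ β ∧ 0 ≤ γ ∧ z = α * a + β * b + γ * c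

variable {a b c : ℤ}

theorem Cmb.mk {z : ℤ} (α β γ : ℤ) (hα : 0 ≤ α) (hβ : 0 ≤ β) (hγ : 0 ≤ γ)
    (h : z = α * a + β * b + γ * c) : Cmb a b c z := ⟨α, β, γ, hα, hβ, hγ, h⟩

theorem Cmb.add {y z : ℤ} (hy : Cmb a b c y) (hz : Cmb a b c z) : Cmb a b c (y + z) := by
  obtain ⟨α, β, γ, h1, h2, h3, h⟩ := hy
  obtain ⟨α', β', γ', h1', h2', h3', h'⟩ := hz
  exact ⟨α + α', β + β', γ + γ', by omega, by omega, by omega, by rw [h, h']; ring⟩

/-- pseudo-Frobenius numbers -/
structure PF (a b c f : ℤ) : Prop where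
  not : ¬ Cmb a b c f
  ha : Cmb a b c (f + a)
  hb : Cmb a b c (f + b)
  hc : Cmb a b c (f + c)

/-- the normal representation of `f + a` -/
structure Nrm (a b c f β γ : ℤ) : Prop where
  β0 : 0 ≤ β
  γ0 : 0 ≤ γ
  eq : f + a = β * b + γ * c
  pure : ∀ i j : ℤ, 1 ≤ i → 1 ≤ j → j ≤ γ → i * b ≠ j * c

theorem PF.nrm {f : ℤ} (h : PF a b c f) : ∃ β γ, Nrm a b c f β γ := by
  classical
  have hex : ∃ γ : ℕ, ∃ β : ℤ, 0 ≤ β ∧ f + a = β * b + γ * c := by
    obtain ⟨α, β, γ, h1, h2, h3, h4⟩ := h.ha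
    have hα : α = 0 := by
      by_contra hα
      exact h.not ⟨α - 1, β, γ, by omega, h2, h3, by linear_combination h4⟩
    refine ⟨γ.toNat, β, h2, ?_⟩
    rw [Int.toNat_of_nonneg h3, h4, hα]
    ring
  obtain ⟨β, hβ, hrep⟩ := Nat.find_spec hex
  refine ⟨β, (Nat.find hex : ℤ), hβ, by positivity, hrep, ?_⟩
  intro i j hi hj hjγ hp
  have hlt : ((Nat.find hex : ℤ) - j).toNat < Nat.find hex := by omega
  apply Nat.find_min hex hlt
  refine ⟨β + i, by omega, ?_⟩
  rw [Int.toNat_of_nonneg (by omega)]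
  linear_combination hrep - hp

theorem excl {f β γ : ℤ} (hf : ¬ Cmb a b c f) (hr : f + a = β * b + γ * c) {i j k i' j' : ℤ}
    (hi : i ≤ β) (hj : j ≤ γ) (hk : 1 ≤ k) (hi' : 0 ≤ i') (hj' : 0 ≤ j')
    (h : i * b + j * c = k * a + i' * b + j' * c) : False :=
  hf ⟨k - 1, β - i + i', γ - j + j', by omega, by omega, by omega,
    by linear_combination hr + h⟩

/-- `f + b` -/
theorem PF.stepb {f β γ : ℤ} (h : PF a b c f) (hr : f + a = β * b + γ * c) :
    ∃ x γ' : ℤ, 1 ≤ x ∧ 0 ≤ γ' ∧ (β + 1) * b + γ * c = x * a + γ' * c := by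
  obtain ⟨α, β', γ', h1, h2, h3, h4⟩ := h.hb
  have hβ : β' = 0 := by
    by_contra hβ
    exact h.not ⟨α, β' - 1, γ', h1, by omega, h3, by linear_combination h4⟩
  refine ⟨α + 1, γ', by omega, h3, ?_⟩
  rw [hβ] at h4
  linear_combination h4 - hr

/-- `f + c` -/
theorem PF.stepc {f β γ : ℤ} (h : PF a b c f) (hr : f + a = β * b + γ * c) :
    ∃ x β' : ℤ, 1 ≤ x ∧ 0 ≤ β' ∧ β * b + (γ + 1) * c = x * a + β' * b := by
  obtain ⟨α, β', γ', h1, h2, h3, h4⟩ := h.hc
  have hγ : γ' = 0 := by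
    by_contra hγ
    exact h.not ⟨α, β', γ' - 1, h1, h2, by omega, by linear_combination h4⟩
  refine ⟨α + 1, β', by omega, h2, ?_⟩
  rw [hγ] at h4
  linear_combination h4 - hr

/-- multiples of a pseudo-Frobenius number -/
theorem PF.add_mul {f : ℤ} (h : PF a b c f) {i j : ℤ} (hi : 0 ≤ i) (hj : 0 ≤ j)
    (hij : 1 ≤ i + j) : Cmb a b c (f + (i * b + j * c)) := by
  rcases lt_or_ge 0 i with h0 | h0
  · have h1 := h.hb.add (Cmb.mk (a := a) (b := b) (c := c) 0 (i - 1) j le_rfl (by omega) hj rfl)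
    have e : f + b + (0 * a + (i - 1) * b + j * c) = f + (i * b + j * c) := by ring
    rwa [e] at h1
  · have hi0 : i = 0 := by omega
    have h1 := h.hc.add (Cmb.mk (a := a) (b := b) (c := c) 0 0 (j - 1) le_rfl le_rfl (by omega) rfl)
    have e : f + c + (0 * a + 0 * b + (j - 1) * c) = f + (i * b + j * c) := by rw [hi0]; ring
    rwa [e] at h1

/-- two pseudo-Frobenius numbers with comparable representations are equal -/
theorem PF.eq_of_le {f g β γ β' γ' : ℤ} (hf : PF a b c f) (hg : PF a b c g)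
    (hr : f + a = β * b + γ * c) (hr' : g + a = β' * b + γ' * c) (h1 : β ≤ β') (h2 : γ ≤ γ') :
    f = g := by
  rcases lt_or_ge 0 ((β' - β) + (γ' - γ)) with h | h
  · exfalso
    have := hf.add_mul (i := β' - β) (j := γ' - γ) (by omega) (by omega) (by omega)
    have e : f + ((β' - β) * b + (γ' - γ) * c) = g := by linear_combination hr - hr'
    rw [e] at this
    exact hg.not this
  · have e1 : β' = β := by omega
    have e2 : γ' = γ := by omega
    rw [e1, e2] at hr'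
    linarith

/-- There are not three pseudo-Frobenius numbers. -/
theorem no_three {f₁ f₂ f₃ β₁ β₂ β₃ γ₁ γ₂ γ₃ : ℤ} (h₁ : PF a b c f₁) (h₂ : PF a b c f₂)
    (h₃ : PF a b c f₃) (n₁ : Nrm a b c f₁ β₁ γ₁) (n₂ : Nrm a b c f₂ β₂ γ₂)
    (n₃ : Nrm a b c f₃ β₃ γ₃) (h12 : β₂ < β₁) (h23 : γ₂ < γ₃) : False := by
  obtain ⟨x, γ', hx, hγ', e1⟩ := h₂.stepb n₂.eq
  obtain ⟨x', β', hx', hβ', e2⟩ := h₂.stepc n₂.eq
  have k1 : γ' < γ₂ := by
    by_contra hlt
    exact excl h₁.not n₁.eq (i := β₂ + 1) (j := 0) (k := x) (i' := 0) (j' := γ' - γ₂) (by omega)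
      n₁.γ0 hx le_rfl (by omega) (by linear_combination e1)
  have k2 : β' < β₂ := by
    by_contra hlt
    exact excl h₃.not n₃.eq (i := 0) (j := γ₂ + 1) (k := x') (i' := β' - β₂) (j' := 0) n₃.β0
      (by omega) hx' (by omega) le_rfl (by linear_combination e2)
  -- `(β₂ + 1) b + (γ₂ - γ') c = x a` and `(β₂ - β') b + (γ₂ + 1) c = x' a`
  rcases lt_trichotomy x x' with hxx | hxx | hxx
  · exact excl h₂.not n₂.eq (i := 0) (j := γ' + 1) (k := x' - x) (i' := β' + 1) (j' := 0)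
      n₂.β0 (by omega) (by omega) (by omega) le_rfl (by linear_combination e2 - e1)
  · refine n₂.pure (β' + 1) (γ' + 1) (by omega) (by omega) (by omega) ?_
    rw [hxx] at e1
    linear_combination e1 - e2
  · exact excl h₂.not n₂.eq (i := β' + 1) (j := 0) (k := x - x') (i' := 0) (j' := γ' + 1)
      (by omega) n₂.γ0 (by omega) le_rfl (by omega) (by linear_combination e1 - e2)

/-- Among three pseudo-Frobenius numbers two are equal. -/
theorem two_eq {f₁ f₂ f₃ : ℤ} (h₁ : PF a b c f₁) (h₂ : PF a b c f₂) (h₃ : PF a b c f₃) :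
    f₁ = f₂ ∨ f₁ = f₃ ∨ f₂ = f₃ := by
  by_contra hne
  push Not at hne
  obtain ⟨h12, h13, h23⟩ := hne
  obtain ⟨β₁, γ₁, n₁⟩ := h₁.nrm
  obtain ⟨β₂, γ₂, n₂⟩ := h₂.nrm
  obtain ⟨β₃, γ₃, n₃⟩ := h₃.nrm
  have A12 := fun u v => h12 (h₁.eq_of_le h₂ n₁.eq n₂.eq u v)
  have A21 := fun u v => h12 (h₂.eq_of_le h₁ n₂.eq n₁.eq u v).symm
  have A13 := fun u v => h13 (h₁.eq_of_le h₃ n₁.eq n₃.eq u v)
  have A31 := fun u v => h13 (h₃.eq_of_le h₁ n₃.eq n₁.eq u v).symm
  have A23 := fun u v => h23 (h₂.eq_of_le h₃ n₂.eq n₃.eq u v)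
  have A32 := fun u v => h23 (h₃.eq_of_le h₂ n₃.eq n₂.eq u v).symm
  -- the order of the `β`
  rcases lt_or_ge β₁ β₂ with p | p <;> rcases lt_or_ge β₂ β₃ with q | q <;>
    rcases lt_or_ge β₁ β₃ with r | r
  · exact no_three h₃ h₂ h₁ n₃ n₂ n₁ q (by by_contra hh; exact A12 p.le (by omega))
  · omega
  · exact no_three h₂ h₃ h₁ n₂ n₃ n₁ (by
      rcases eq_or_lt_of_le q with e | e
      · exfalso
        rcases le_total γ₂ γ₃ with g | g
        · exact A23 e.ge g
        · exact A32 e.le g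
      · exact e) (by by_contra hh; exact A13 r.le (by omega))
  · exact no_three h₂ h₁ h₃ n₂ n₁ n₃ p (by
      by_contra hh
      exact A31 r (by omega))
  · exact no_three h₃ h₁ h₂ n₃ n₁ n₂ r (by
      by_contra hh
      exact A21 p (by omega))
  · exact no_three h₁ h₃ h₂ n₁ n₃ n₂ (by
      rcases eq_or_lt_of_le r with e | e
      · exfalso
        rcases le_total γ₁ γ₃ with g | g
        · exact A13 e.ge g
        · exact A31 e.le g
      · exact e) (by by_contra hh; exact A23 q.le (by omega))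
  · omega
  · exact no_three h₁ h₂ h₃ n₁ n₂ n₃ (by
      rcases eq_or_lt_of_le p with e | e
      · exfalso
        rcases le_total γ₁ γ₂ with g | g
        · exact A12 e.ge g
        · exact A21 e.le g
      · exact e) (by by_contra hh; exact A32 q (by omega))

end Pool.Agent.Helper74.WH
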