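import Mathlib
import Pool.Agent.Helper74.WH.Three

/-!
# The relations of Herzog
-/

set_option autoImplicit false

namespace Pool.Agent.Helper74.WH

variable {a b c : ℤ}

/-- Two pseudo-Frobenius numbers, with normal representations `(β₁, γ₁)` and `(β₂, γ₂)` of
`f₁ + a` and `f₂ + a`. -/
structure Two (a b c f₁ f₂ β₁ γ₁ β₂ γ₂ : ℤ) : Prop where
  a0 : 0 < a
  b0 : 0 < b
  c0 : 0 < c
  pf₁ : PF a b c f₁
  pf₂ : PF a b c f₂
  n₁ : Nrm a b c f₁ β₁ γ₁
  n₂ : Nrm a b c f₂ β₂ γ₂
  hβ : β₂ < β₁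
  hγ : γ₁ < γ₂

/-- The relations of Herzog. -/
structure Herz (a b c β₁ γ₁ β₂ γ₂ x y : ℤ) : Prop where
  x1 : 1 ≤ x
  y1 : 1 ≤ y
  ra : (β₂ + 1) * b + (γ₁ + 1) * c = (x + y) * a
  rb : (β₁ + 1) * b = x * a + (γ₂ - γ₁) * c
  rc : (γ₂ + 1) * c = y * a + (β₁ - β₂) * b

theorem Two.rel_a {f₁ f₂ β₁ γ₁ β₂ γ₂ : ℤ} (T : Two a b c f₁ f₂ β₁ γ₁ β₂ γ₂) :
    ∃ c₁ : ℤ, 1 ≤ c₁ ∧ (β₂ + 1) * b + (γ₁ + 1) * c = c₁ * a := by
  have hβ := T.hβ
  have hγ := T.hγ
  have b2 := T.n₂.β0
  have g1 := T.n₁.γ0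
  obtain ⟨x, γ', hx, hγ', e1⟩ := T.pf₂.stepb T.n₂.eq
  obtain ⟨x', β', hx', hβ', e2⟩ := T.pf₁.stepc T.n₁.eq
  have k1 : γ' < γ₂ := by
    by_contra hlt
    exact excl T.pf₁.not T.n₁.eq (i := β₂ + 1) (j := 0) (k := x) (i' := 0) (j' := γ' - γ₂)
      (by omega) T.n₁.γ0 hx le_rfl (by omega) (by linear_combination e1)
  have k2 : γ₁ < γ₂ - γ' := by
    by_contra hlt
    exact excl T.pf₁.not T.n₁.eq (i := β₂ + 1) (j := γ₂ - γ') (k := x) (i' := 0) (j' := 0)
      (by omega) (by omega) hx le_rfl le_rfl (by linear_combination e1)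
  have k3 : β' < β₁ := by
    by_contra hlt
    exact excl T.pf₂.not T.n₂.eq (i := 0) (j := γ₁ + 1) (k := x') (i' := β' - β₁) (j' := 0)
      (by omega) (by omega) hx' (by omega) le_rfl (by linear_combination e2)
  have k4 : β₂ < β₁ - β' := by
    by_contra hlt
    exact excl T.pf₂.not T.n₂.eq (i := β₁ - β') (j := γ₁ + 1) (k := x') (i' := 0) (j' := 0)
      (by omega) (by omega) hx' le_rfl le_rfl (by linear_combination e2)
  rcases lt_trichotomy x x' with hxx | hxx | hxx
  · exfalso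
    exact excl T.pf₁.not T.n₁.eq (i := β₁ - β' - β₂ - 1) (j := 0) (k := x' - x) (i' := 0)
      (j' := γ₂ - γ' - γ₁ - 1) (by omega) T.n₁.γ0 (by omega) le_rfl (by omega)
      (by linear_combination e2 - e1)
  · subst hxx
    rcases lt_or_ge (γ₁ + 1) (γ₂ - γ') with hk | hk
    · exfalso
      have hr : (β₁ - β' - β₂ - 1) * b = (γ₂ - γ' - γ₁ - 1) * c := by
        linear_combination e2 - e1
      refine T.n₂.pure (β₁ - β' - β₂ - 1) (γ₂ - γ' - γ₁ - 1) ?_ (by omega) (by omega) hr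
      by_contra hneg
      have h0 : β₁ - β' - β₂ - 1 = 0 := by omega
      rw [h0, zero_mul] at hr
      have : 0 < (γ₂ - γ' - γ₁ - 1) * c := mul_pos (by omega) T.c0
      omega
    · refine ⟨x, hx, ?_⟩
      have h0 : γ₁ + 1 = γ₂ - γ' := by omega
      rw [h0]
      linear_combination e1
  · exfalso
    exact excl T.pf₂.not T.n₂.eq (i := 0) (j := γ₂ - γ' - γ₁ - 1) (k := x - x')
      (i' := β₁ - β' - β₂ - 1) (j' := 0) (by omega) (by omega) (by omega) (by omega) le_rfl
      (by linear_combination e1 - e2)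

theorem Two.herz {f₁ f₂ β₁ γ₁ β₂ γ₂ : ℤ} (T : Two a b c f₁ f₂ β₁ γ₁ β₂ γ₂) :
    ∃ x y : ℤ, Herz a b c β₁ γ₁ β₂ γ₂ x y := by
  have hβ := T.hβ
  have hγ := T.hγ
  have b2 := T.n₂.β0
  have g1 := T.n₁.γ0
  have b0 := T.b0
  have c0 := T.c0
  have a0 := T.a0
  obtain ⟨c₁, hc₁, R⟩ := T.rel_a
  -- `(β₁ + 1) b = x a + v' c`
  obtain ⟨x, v', hx, hv', e1⟩ : ∃ x v' : ℤ, 1 ≤ x ∧ 0 ≤ v' ∧ (β₁ + 1) * b = x * a + v' * c := by
    obtain ⟨x, γ', hx, hγ', e1⟩ := T.pf₁.stepb T.n₁.eq
    rcases lt_or_ge γ' γ₁ with hlt | hge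
    · exfalso
      have hr : (β₁ - β₂) * b = (x - c₁) * a + (γ' + 1) * c := by linear_combination e1 - R
      rcases lt_trichotomy x c₁ with hxc | hxc | hxc
      · exact excl T.pf₂.not T.n₂.eq (i := 0) (j := γ' + 1) (k := c₁ - x) (i' := β₁ - β₂)
          (j' := 0) (by omega) (by omega) (by omega) (by omega) le_rfl (by linear_combination -hr)
      · refine T.n₂.pure (β₁ - β₂) (γ' + 1) (by omega) (by omega) (by omega) ?_
        rw [hr, hxc]
        ring
      · exact excl T.pf₁.not T.n₁.eq (i := β₁ - β₂) (j := 0) (k := x - c₁) (i' := 0)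
          (j' := γ' + 1) (by omega) (by omega) (by omega) le_rfl (by omega)
          (by linear_combination hr)
    · exact ⟨x, γ' - γ₁, hx, by omega, by linear_combination e1⟩
  obtain ⟨y, u', hy, hu', e2⟩ : ∃ y u' : ℤ, 1 ≤ y ∧ 0 ≤ u' ∧ (γ₂ + 1) * c = y * a + u' * b := by
    obtain ⟨y, β', hy, hβ', e2⟩ := T.pf₂.stepc T.n₂.eq
    rcases lt_or_ge β' β₂ with hlt | hge
    · exfalso
      have hr : (γ₂ - γ₁) * c = (y - c₁) * a + (β' + 1) * b := by linear_combination e2 - R
      rcases lt_trichotomy y c₁ with hxc | hxc | hxc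
      · exact excl T.pf₁.not T.n₁.eq (i := β' + 1) (j := 0) (k := c₁ - y) (i' := 0)
          (j' := γ₂ - γ₁) (by omega) (by omega) (by omega) le_rfl (by omega)
          (by linear_combination -hr)
      · refine T.n₂.pure (β' + 1) (γ₂ - γ₁) (by omega) (by omega) (by omega) ?_
        rw [hr, hxc]
        ring
      · exact excl T.pf₂.not T.n₂.eq (i := 0) (j := γ₂ - γ₁) (k := y - c₁) (i' := β' + 1)
          (j' := 0) (by omega) (by omega) (by omega) (by omega) le_rfl
          (by linear_combination hr)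
    · exact ⟨y, β' - β₂, hy, by omega, by linear_combination e2⟩
  -- `v ≤ v'`
  have hv : γ₂ - γ₁ ≤ v' ∧ x < c₁ := by
    have hr : (β₁ - β₂) * b = (x - c₁) * a + (v' + γ₁ + 1) * c := by linear_combination e1 - R
    rcases lt_trichotomy x c₁ with hxc | hxc | hxc
    · refine ⟨?_, hxc⟩
      by_contra hlt
      exact excl T.pf₂.not T.n₂.eq (i := 0) (j := v' + γ₁ + 1) (k := c₁ - x) (i' := β₁ - β₂)
          (j' := 0) (by omega) (by omega) (by omega) (by omega) le_rfl (by linear_combination -hr)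
    · exfalso
      have hr' : f₁ + a = β₂ * b + (γ₁ + v' + γ₁ + 1) * c := by
        rw [hxc] at hr
        linear_combination T.n₁.eq + hr
      have hne : f₁ = f₂ := by
        rcases le_total γ₂ (γ₁ + v' + γ₁ + 1) with g | g
        · exact (T.pf₂.eq_of_le T.pf₁ T.n₂.eq hr' le_rfl g).symm
        · exact T.pf₁.eq_of_le T.pf₂ hr' T.n₂.eq le_rfl g
      have h3 : (β₁ - β₂) * b = (γ₂ - γ₁) * c := by
        linear_combination T.n₂.eq - T.n₁.eq + hne
      exact T.n₂.pure (β₁ - β₂) (γ₂ - γ₁) (by omega) (by omega) (by omega) h3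
    · exfalso
      exact excl T.pf₁.not T.n₁.eq (i := β₁ - β₂) (j := 0) (k := x - c₁) (i' := 0)
          (j' := v' + γ₁ + 1) (by omega) (by omega) (by omega) le_rfl (by omega)
          (by linear_combination hr)
  have hu : β₁ - β₂ ≤ u' ∧ y < c₁ := by
    have hr : (γ₂ - γ₁) * c = (y - c₁) * a + (u' + β₂ + 1) * b := by linear_combination e2 - R
    rcases lt_trichotomy y c₁ with hxc | hxc | hxc
    · refine ⟨?_, hxc⟩
      by_contra hlt
      exact excl T.pf₁.not T.n₁.eq (i := u' + β₂ + 1) (j := 0) (k := c₁ - y) (i' := 0)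
          (j' := γ₂ - γ₁) (by omega) (by omega) (by omega) le_rfl (by omega)
          (by linear_combination -hr)
    · exfalso
      refine T.n₂.pure (u' + β₂ + 1) (γ₂ - γ₁) (by omega) (by omega) (by omega) ?_
      rw [hr, hxc]
      ring
    · exfalso
      exact excl T.pf₂.not T.n₂.eq (i := 0) (j := γ₂ - γ₁) (k := y - c₁) (i' := u' + β₂ + 1)
          (j' := 0) (by omega) (by omega) (by omega) (by omega) le_rfl
          (by linear_combination hr)
  obtain ⟨hv, hxc⟩ := hv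
  obtain ⟨hu, hyc⟩ := hu
  -- the difference
  have D : (u' - (β₁ - β₂)) * b + (v' - (γ₂ - γ₁)) * c = (c₁ - x - y) * a := by
    linear_combination R - e1 - e2
  have key : u' = β₁ - β₂ ∧ v' = γ₂ - γ₁ := by
    by_contra hne
    set i := u' - (β₁ - β₂) with hi
    set j := v' - (γ₂ - γ₁) with hj
    have hi0 : 0 ≤ i := by omega
    have hj0 : 0 ≤ j := by omega
    have hij : 1 ≤ i + j := by omega
    have hpos : 0 < i * b + j * c := by
      rcases lt_or_ge 0 i with h0 | h0
      · have := mul_pos h0 b0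
        have := mul_nonneg hj0 c0.le
        omega
      · have h1 : 0 < j := by omega
        have := mul_pos h1 c0
        have := mul_nonneg hi0 b0.le
        omega
    have hk : 1 ≤ c₁ - x - y := by
      by_contra hk
      have : (c₁ - x - y) * a ≤ 0 := mul_nonpos_of_nonpos_of_nonneg (by omega) a0.le
      omega
    rcases lt_or_ge β₂ i with h2 | h2
    · rcases lt_or_ge γ₁ j with h3 | h3
      · have h4 : (β₂ + 1) * b ≤ i * b := mul_le_mul_of_nonneg_right (by omega) b0.le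
        have h5 : (γ₁ + 1) * c ≤ j * c := mul_le_mul_of_nonneg_right (by omega) c0.le
        have h6 : c₁ * a ≤ (c₁ - x - y) * a := by linarith
        have h7 := le_of_mul_le_mul_right h6 a0
        omega
      · exact excl T.pf₂.not T.n₂.eq (i := 0) (j := γ₁ + 1 - j) (k := x + y)
          (i' := i - β₂ - 1) (j' := 0) (by omega) (by omega) (by omega) (by omega) le_rfl
          (by linear_combination R - D)
    · have h3 : γ₂ < j := by
        by_contra hh
        exact excl T.pf₂.not T.n₂.eq (i := i) (j := j) (k := c₁ - x - y)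
          (i' := 0) (j' := 0) (by omega) (by omega) hk le_rfl le_rfl
          (by linear_combination D)
      exact excl T.pf₁.not T.n₁.eq (i := β₂ + 1 - i) (j := 0) (k := x + y)
          (i' := 0) (j' := j - γ₁ - 1) (by omega) (by omega) (by omega) le_rfl (by omega)
          (by linear_combination R - D)
  obtain ⟨ku, kv⟩ := key
  rw [ku, kv] at D
  have hsum : c₁ = x + y := by
    have : (c₁ - x - y) * a = 0 := by rw [← D]; ring
    rcases mul_eq_zero.mp this with h | h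
    · omega
    · omega
  exact ⟨x, y, hx, hy, by rw [R, hsum], by rw [e1, kv], by rw [e2, ku]⟩

end Pool.Agent.Helper74.WH
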