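import Pool.Agent.Helper74.WH.Semi

/-!
# The inequality of Wilf for halves
-/

set_option autoImplicit false

namespace Pool.Agent.Helper74.WH

open Finset

section Cmb3

variable {a b c : ℤ}

theorem pf_of_isPF {f : ℤ} (h : IsPF (Cmb a b c) f) (ha : a ≠ 0) (hb : b ≠ 0) (hc : c ≠ 0) :
    PF a b c f :=
  ⟨h.1, h.2 a (Cmb.mk 1 0 0 (by omega) le_rfl le_rfl (by ring)) ha,
    h.2 b (Cmb.mk 0 1 0 le_rfl (by omega) le_rfl (by ring)) hb,
    h.2 c (Cmb.mk 0 0 1 le_rfl le_rfl (by omega) (by ring)) hc⟩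

theorem two_of_ne {f₁ f₂ : ℤ} (a0 : 0 < a) (b0 : 0 < b) (c0 : 0 < c) (h₁ : PF a b c f₁)
    (h₂ : PF a b c f₂) (hne : f₁ ≠ f₂) :
    (∃ β₁ γ₁ β₂ γ₂, Two a b c f₁ f₂ β₁ γ₁ β₂ γ₂) ∨
      ∃ β₁ γ₁ β₂ γ₂, Two a b c f₂ f₁ β₁ γ₁ β₂ γ₂ := by
  obtain ⟨β₁, γ₁, n₁⟩ := h₁.nrm
  obtain ⟨β₂, γ₂, n₂⟩ := h₂.nrm
  have A12 := fun u v => hne (h₁.eq_of_le h₂ n₁.eq n₂.eq u v)
  have A21 := fun u v => hne (h₂.eq_of_le h₁ n₂.eq n₁.eq u v).symm
  rcases lt_trichotomy β₁ β₂ with h | h | h
  · right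
    refine ⟨β₂, γ₂, β₁, γ₁, a0, b0, c0, h₂, h₁, n₂, n₁, h, ?_⟩
    by_contra hh
    exact A12 h.le (not_lt.mp hh)
  · exfalso
    rcases le_total γ₁ γ₂ with g | g
    · exact A12 h.le g
    · exact A21 h.ge g
  · left
    refine ⟨β₁, γ₁, β₂, γ₂, a0, b0, c0, h₁, h₂, n₁, n₂, h, ?_⟩
    by_contra hh
    exact A21 h.le (not_lt.mp hh)

theorem one_eq {f₁ f₂ : ℤ} (h₁ : PF a b b f₁) (h₂ : PF a b b f₂) : f₁ = f₂ := by
  obtain ⟨β₁, γ₁, n₁⟩ := h₁.nrm
  obtain ⟨β₂, γ₂, n₂⟩ := h₂.nrm
  have z : ∀ {f β γ : ℤ}, Nrm a b b f β γ → γ = 0 := fun {f β γ} n => by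
    have h0 := n.γ0
    by_contra hne
    exact n.pure 1 1 le_rfl le_rfl (by omega) rfl
  have e1 := z n₁
  have e2 := z n₂
  rcases le_total β₁ β₂ with g | g
  · exact h₁.eq_of_le h₂ n₁.eq n₂.eq g (by omega)
  · exact (h₂.eq_of_le h₁ n₂.eq n₁.eq g (by omega)).symm

end Cmb3

section Types

variable {S : AddSubmonoid ℕ}

theorem exists_pf_Zm (hS : {x : ℕ | x ∉ S}.Finite) {z : ℤ} (hz : ¬ Zm S z) :
    ∃ f, IsPF (Zm S) f ∧ Zm S (f - z) :=
  exists_pf Zm_zero Zm_add Zm_nonneg (Zm_big hS) hz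

theorem not_neg_one : ¬ Zm S (-1) := fun h => by
  have := Zm_nonneg _ h
  omega

theorem at_most_two (hS : {x : ℕ | x ∉ S}.Finite) {a b c : ℤ} (a0 : 0 < a) (b0 : 0 < b)
    (c0 : 0 < c) (hP : Zm S = Cmb a b c) : ∃ f₁ f₂, IsPF (Zm S) f₁ ∧ IsPF (Zm S) f₂ ∧
      ∀ z, ¬ Zm S z → Zm S (f₁ - z) ∨ Zm S (f₂ - z) := by
  obtain ⟨f₁, h₁, -⟩ := exists_pf_Zm hS not_neg_one
  by_cases h : ∃ f₂, IsPF (Zm S) f₂ ∧ f₂ ≠ f₁
  · obtain ⟨f₂, h₂, hne⟩ := h
    refine ⟨f₁, f₂, h₁, h₂, fun z hz => ?_⟩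
    obtain ⟨f, hf, hfz⟩ := exists_pf_Zm hS hz
    have g : ∀ {f}, IsPF (Zm S) f → PF a b c f := fun h =>
      pf_of_isPF (hP ▸ h) a0.ne' b0.ne' c0.ne'
    rcases two_eq (g h₁) (g h₂) (g hf) with e | e | e
    · exact absurd e.symm hne
    · left
      rwa [e]
    · right
      rwa [e]
  · push Not at h
    refine ⟨f₁, f₁, h₁, h₁, fun z hz => ?_⟩
    obtain ⟨f, hf, hfz⟩ := exists_pf_Zm hS hz
    left
    rwa [h f hf] at hfz

theorem at_most_one (hS : {x : ℕ | x ∉ S}.Finite) {a b : ℤ} (a0 : 0 < a) (b0 : 0 < b)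
    (hP : Zm S = Cmb a b b) : ∃ f, IsPF (Zm S) f ∧ ∀ z, ¬ Zm S z → Zm S (f - z) := by
  obtain ⟨f₁, h₁, -⟩ := exists_pf_Zm hS not_neg_one
  refine ⟨f₁, h₁, fun z hz => ?_⟩
  obtain ⟨f, hf, hfz⟩ := exists_pf_Zm hS hz
  have g : ∀ {f}, IsPF (Zm S) f → PF a b b f := fun h => pf_of_isPF (hP ▸ h) a0.ne' b0.ne' b0.ne'
  rwa [one_eq (g h₁) (g hf)]

/-- three generators, in increasing order -/
theorem sorted3 {K : Finset ℤ} (h : K.card = 3) :
    ∃ a b c, a < b ∧ b < c ∧ ∀ q, q ∈ K ↔ q = a ∨ q = b ∨ q = c := by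
  obtain ⟨x, y, z, hxy, hxz, hyz, rfl⟩ := card_eq_three.mp h
  simp only [mem_insert, mem_singleton]
  rcases lt_or_gt_of_ne hxy with h1 | h1 <;> rcases lt_or_gt_of_ne hxz with h2 | h2 <;>
    rcases lt_or_gt_of_ne hyz with h3 | h3
  · exact ⟨x, y, z, h1, h3, fun q => by tauto⟩
  · exact ⟨x, z, y, h2, h3, fun q => by tauto⟩
  · omega
  · exact ⟨z, x, y, h2, h1, fun q => by tauto⟩
  · exact ⟨y, x, z, h1, h2, fun q => by tauto⟩
  · omega
  · exact ⟨y, z, x, h3, h2, fun q => by tauto⟩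
  · exact ⟨z, y, x, h3, h1, fun q => by tauto⟩

end Types

/-! ## Small embedding dimension of the half -/

section SmallHalf

variable {S : AddSubmonoid ℕ}

theorem Zm_half_iff {y : ℤ} : Zm (half S) y ↔ Zm S (2 * y) := by
  constructor
  · rintro ⟨s, hs, rfl⟩
    exact Zm_half.mpr hs
  · intro h
    have h0 := Zm_nonneg _ h
    obtain ⟨n, rfl⟩ := Int.eq_ofNat_of_zero_le (show 0 ≤ y by omega)
    exact Zm_nat.mpr (Zm_half.mp h)

theorem half_bel (hS : {x : ℕ | x ∉ S}.Finite) {f : ℤ} (hf : ¬ Zm (half S) f) :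
    (Bel (Zm S) (GG S) (2 * f)).card ≤ (EE S).card :=
  (ctx hS).even (fun h => hf (Zm_half_iff.mpr h)) (even_two_mul f)

theorem half_gap (hS : {x : ℕ | x ∉ S}.Finite) {z : ℤ} (hz : z ∈ GG S) :
    ∃ y, z = 2 * y ∧ ¬ Zm (half S) y := by
  obtain ⟨-, ⟨y, hy⟩, hz3⟩ := (mem_GG hS).mp hz
  refine ⟨y, by omega, fun h => hz3 ?_⟩
  have := Zm_half_iff.mp h
  rwa [show z = 2 * y by omega]

theorem embDim_pos (hS : {x : ℕ | x ∉ S}.Finite) : 0 < embDim S := by
  rw [← card_gens hS, card_pos]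
  obtain ⟨N, hN⟩ := Zm_big hS
  rcases (gens_gen hS).gen (max N 1) (hN _ (le_max_left _ _)) with h | ⟨q, hq, -⟩
  · have := le_max_right N 1
    omega
  · exact ⟨q, hq⟩

/-- the inequality of Wilf for semigroups with at most three generators, here for halves -/
theorem wilf_three (hS : {x : ℕ | x ∉ S}.Finite) (h : embDim (half S) ≤ 3) : Wilf (half S) := by
  have hT := half_fin hS
  have g := gens_gen hT
  have hcard := card_gens hT
  have hpos := embDim_pos hT
  have h123 : embDim (half S) = 1 ∨ embDim (half S) = 2 ∨ embDim (half S) = 3 := by omega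
  rcases h123 with h1 | h2 | h3
  · -- one generator
    obtain ⟨a, ha⟩ := card_eq_one.mp (hcard.trans h1)
    have a0 := g.pos a (by rw [ha]; exact mem_singleton_self a)
    have hP : Zm (half S) = Cmb a a a := cmb_of_gen g Zm_zero Zm_add Zm_nonneg fun q => by
      rw [ha, mem_singleton]
      tauto
    obtain ⟨N, hN⟩ := Zm_big hT
    have k1 := hN N le_rfl
    have k2 := hN (N + 1) (by omega)
    rw [hP] at k1 k2
    obtain ⟨α, β, γ, -, -, -, e1⟩ := k1
    obtain ⟨α', β', γ', -, -, -, e2⟩ := k2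
    have e3 : a * (α' + β' + γ' - α - β - γ) = 1 := by linear_combination e1 - e2
    have ha1 : a = 1 := by
      rcases Int.eq_one_or_neg_one_of_mul_eq_one e3 with h | h
      · exact h
      · omega
    have hG : GG S = ∅ := by
      refine eq_empty_of_forall_notMem fun z hz => ?_
      obtain ⟨y, hy, hyT⟩ := half_gap hS hz
      apply hyT
      have := ((mem_GG hS).mp hz).1
      rw [hP, ha1]
      exact Cmb.mk y 0 0 (by omega) le_rfl le_rfl (by ring)
    exact wilf_of hS (m := 0) (by omega) (by rw [hG]; simp)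
  · -- two generators
    obtain ⟨a, b, hab, hK⟩ := card_eq_two.mp (hcard.trans h2)
    have a0 := g.pos a (by rw [hK]; simp)
    have b0 := g.pos b (by rw [hK]; simp)
    have hP : Zm (half S) = Cmb a b b := cmb_of_gen g Zm_zero Zm_add Zm_nonneg fun q => by
      rw [hK, mem_insert, mem_singleton]
      tauto
    obtain ⟨f, hf, hcov⟩ := at_most_one hT a0 b0 hP
    refine wilf_of hS (m := 1) (by omega) ?_
    rw [one_mul]
    refine (card_le_card fun z hz => mem_Bel.mpr ⟨hz, ?_⟩).trans (half_bel hS hf.1)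
    obtain ⟨y, rfl, hyT⟩ := half_gap hS hz
    have := Zm_half_iff.mp (hcov y hyT)
    rwa [mul_sub] at this
  · -- three generators
    obtain ⟨a, b, c, -, -, hK⟩ := sorted3 (hcard.trans h3)
    have a0 := g.pos a ((hK a).mpr (Or.inl rfl))
    have b0 := g.pos b ((hK b).mpr (Or.inr (Or.inl rfl)))
    have c0 := g.pos c ((hK c).mpr (Or.inr (Or.inr rfl)))
    obtain ⟨f₁, f₂, h₁, h₂, hcov⟩ := at_most_two hT a0 b0 c0
      (cmb_of_gen g Zm_zero Zm_add Zm_nonneg hK)
    refine wilf_of hS (m := 2) (by omega) ?_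
    have k := cover2 (P := Zm S) (G := GG S) (f₁ := 2 * f₁) (f₂ := 2 * f₂) fun z hz => by
      obtain ⟨y, rfl, hyT⟩ := half_gap hS hz
      rw [← mul_sub, ← mul_sub, ← Zm_half_iff, ← Zm_half_iff]
      exact hcov y hyT
    have k1 := half_bel hS h₁.1
    have k2 := half_bel hS h₂.1
    omega

end SmallHalf

/-! ## Few generators -/

section Few

variable {S : AddSubmonoid ℕ}

open Classical in
/-- the odd generators -/
noncomputable def og (hS : {x : ℕ | x ∉ S}.Finite) : Finset ℤ := (gens hS).filter Odd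

theorem mem_og (hS : {x : ℕ | x ∉ S}.Finite) {q : ℤ} : q ∈ og hS ↔ q ∈ gens hS ∧ Odd q := by
  classical
  exact mem_filter

theorem og_cov (hS : {x : ℕ | x ∉ S}.Finite) (z : ℤ) (hz : Zm S z) (ho : Odd z) :
    ∃ q ∈ og hS, Zm S (z - q) := by
  obtain ⟨q, hq, hqo, hqz⟩ := (gens_gen hS).odd Zm_add Zm_nonneg z.toNat z (Int.self_le_toNat z)
    hz ho
  exact ⟨q, (mem_og hS).mpr ⟨hq, hqo⟩, hqz⟩

theorem og_ne (hS : {x : ℕ | x ∉ S}.Finite) : (og hS).Nonempty := by
  obtain ⟨N, hN⟩ := Zm_big hS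
  obtain ⟨q, hq, -⟩ := og_cov hS (2 * |N| + 1) (hN _ (by have := le_abs_self N; have := abs_nonneg N; omega))
    ⟨|N|, rfl⟩
  exact ⟨q, hq⟩

theorem og_perf (hS : {x : ℕ | x ∉ S}.Finite) {f : ℤ} (hf : ¬ Zm S f) :
    (Bel (Zm S) (GG S) f).card ≤ (og hS).card * (EE S).card :=
  (ctx hS).perf (fun q hq => ⟨(gens_gen hS).mem q ((mem_og hS).mp hq).1, ((mem_og hS).mp hq).2⟩)
    (og_cov hS) (og_ne hS) hf

/-- two odd generators among three -/
theorem twoOdd (hS : {x : ℕ | x ∉ S}.Finite) {a b c : ℤ}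
    (hK : ∀ q, q ∈ gens hS ↔ q = a ∨ q = b ∨ q = c) (ha : Even a) (hb : Odd b) (hc : Odd c)
    (hbc : b < c) : (GG S).card ≤ 3 * (EE S).card := by
  have g := gens_gen hS
  have a0 := g.pos a ((hK a).mpr (Or.inl rfl))
  have b0 := g.pos b ((hK b).mpr (Or.inr (Or.inl rfl)))
  have c0 := g.pos c ((hK c).mpr (Or.inr (Or.inr rfl)))
  have hP := cmb_of_gen g Zm_zero Zm_add Zm_nonneg hK
  obtain ⟨f₁, f₂, h₁, h₂, hcov⟩ := at_most_two hS a0 b0 c0 hP
  have hog : (og hS).card ≤ 2 := by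
    refine (card_le_card (t := {b, c}) fun q hq => ?_).trans card_le_two
    obtain ⟨hq1, hq2⟩ := (mem_og hS).mp hq
    rcases (hK q).mp hq1 with rfl | rfl | rfl
    · exact absurd hq2 (Int.not_odd_iff_even.mpr ha)
    · simp
    · simp
  have B : ∀ f, ¬ Zm S f → (Bel (Zm S) (GG S) f).card ≤ 2 * (EE S).card := fun f hf =>
    (og_perf hS hf).trans (Nat.mul_le_mul_right _ hog)
  have hG := cover2 (P := Zm S) (G := GG S) (f₁ := f₁) (f₂ := f₂) fun z hz =>
    hcov z ((mem_GG hS).mp hz).2.2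
  rcases Int.even_or_odd f₁ with e1 | o1
  · have k1 := (ctx hS).even h₁.1 e1
    have k2 := B f₂ h₂.1
    omega
  rcases Int.even_or_odd f₂ with e2 | o2
  · have k1 := (ctx hS).even h₂.1 e2
    have k2 := B f₁ h₁.1
    omega
  by_cases hne : f₁ = f₂
  · subst hne
    have k2 := B f₁ h₁.1
    have k3 : (GG S).card ≤ (Bel (Zm S) (GG S) f₁).card := card_le_card fun z hz =>
      mem_Bel.mpr ⟨hz, (hcov z ((mem_GG hS).mp hz).2.2).elim id id⟩
    omega
  · have C : Ctx (Cmb a b c) (GG S) (EE S) := hP ▸ ctx hS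
    have gp : ∀ {f}, IsPF (Zm S) f → PF a b c f := fun h =>
      pf_of_isPF (hP ▸ h) a0.ne' b0.ne' c0.ne'
    have hcov' : ∀ z ∈ GG S, Cmb a b c (f₁ - z) ∨ Cmb a b c (f₂ - z) := fun z hz => by
      rw [← hP]
      exact hcov z ((mem_GG hS).mp hz).2.2
    rcases two_of_ne a0 b0 c0 (gp h₁) (gp h₂) hne with ⟨β₁, γ₁, β₂, γ₂, T⟩ | ⟨β₁, γ₁, β₂, γ₂, T⟩
    · exact merge C T ha hb hc hbc o1 o2 hcov'
    · exact merge C T ha hb hc hbc o2 o1 fun z hz => (hcov' z hz).symm

/-- twice the smallest generator, if all generators are odd -/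
theorem two_mem (hS : {x : ℕ | x ∉ S}.Finite) {a : ℤ} (ha : a ∈ gens hS)
    (hmin : ∀ q ∈ gens hS, a ≤ q) (hodd : ∀ q ∈ gens hS, Odd q) (h2 : 2 ≤ (EE S).card) :
    2 * a ∈ EE S := by
  classical
  have g := gens_gen hS
  obtain ⟨e, he, he0⟩ := exists_mem_ne (by omega : 1 < (EE S).card) 0
  obtain ⟨hev, hP, z, hz, hlt⟩ := (mem_EE hS).mp he
  have hge : 2 * a ≤ e := by
    rcases g.gen e hP with h | ⟨q, hq, hqP⟩
    · exact absurd h he0
    · rcases g.gen (e - q) hqP with h | ⟨q', hq', hqP'⟩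
      · have h1 : e = q := by omega
        have h2 := hodd q hq
        rw [← h1] at h2
        exact absurd hev (Int.not_even_iff_odd.mpr h2)
      · have := Zm_nonneg _ hqP'
        have := hmin q hq
        have := hmin q' hq'
        omega
  refine (mem_EE hS).mpr ⟨even_two_mul a, ?_, z, hz, by omega⟩
  rw [two_mul]
  exact Zm_add _ _ (g.mem a ha) (g.mem a ha)

/-- three odd generators -/
theorem threeOdd (hS : {x : ℕ | x ∉ S}.Finite) {a b c : ℤ}
    (hK : ∀ q, q ∈ gens hS ↔ q = a ∨ q = b ∨ q = c) (hab : a < b) (hbc : b < c) (ha : Odd a)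
    (hb : Odd b) (hc : Odd c) (h4 : 4 ≤ embDim (half S)) : Wilf (half S) := by
  classical
  rcases Nat.lt_or_ge (EE S).card 2 with h1 | h2
  · exact wilf_small hS (by omega)
  have g := gens_gen hS
  have ma := (hK a).mpr (Or.inl rfl)
  have mb := (hK b).mpr (Or.inr (Or.inl rfl))
  have mc := (hK c).mpr (Or.inr (Or.inr rfl))
  have a0 := g.pos a ma
  have b0 := g.pos b mb
  have c0 := g.pos c mc
  have hP := cmb_of_gen g Zm_zero Zm_add Zm_nonneg hK
  have hodd : ∀ q ∈ gens hS, Odd q := fun q hq => by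
    rcases (hK q).mp hq with rfl | rfl | rfl
    exacts [ha, hb, hc]
  have h2a := two_mem hS ma (fun q hq => by
    rcases (hK q).mp hq with rfl | rfl | rfl <;> omega) hodd h2
  have hKc : (gens hS).card = 3 := by
    have : gens hS = {a, b, c} := by
      ext q
      rw [hK]
      simp
    rw [this]
    exact card_eq_three.mpr ⟨a, b, c, hab.ne, (hab.trans hbc).ne, hbc.ne, rfl⟩
  obtain ⟨f₁, f₂, h₁, h₂, hcov⟩ := at_most_two hS a0 b0 c0 hP
  have B : ∀ f, ¬ Zm S f → Odd f → (Bel (Zm S) (GG S) f).card ≤ 2 * (EE S).card :=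
    fun f hf ho => by
      have := allOdd (ctx hS) (fun q hq => ⟨g.mem q hq, hodd q hq⟩) g.gen ma mc mb a0
        (hab.trans hbc) hab.ne' hbc.ne h2a hf ho
      rwa [hKc] at this
  have hG := cover2 (P := Zm S) (G := GG S) (f₁ := f₁) (f₂ := f₂) fun z hz =>
    hcov z ((mem_GG hS).mp hz).2.2
  rcases Int.even_or_odd f₁ with e1 | o1
  · have k1 := (ctx hS).even h₁.1 e1
    have k2 : (Bel (Zm S) (GG S) f₂).card ≤ 2 * (EE S).card := by
      rcases Int.even_or_odd f₂ with e2 | o2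
      · have := (ctx hS).even h₂.1 e2
        omega
      · exact B f₂ h₂.1 o2
    exact wilf_of hS (m := 3) (by omega) (by omega)
  rcases Int.even_or_odd f₂ with e2 | o2
  · have k1 := (ctx hS).even h₂.1 e2
    have k2 := B f₁ h₁.1 o1
    exact wilf_of hS (m := 3) (by omega) (by omega)
  have k1 := B f₁ h₁.1 o1
  have k2 := B f₂ h₂.1 o2
  by_cases hne : f₁ = f₂
  · subst hne
    have k3 : (GG S).card ≤ (Bel (Zm S) (GG S) f₁).card := card_le_card fun z hz =>
      mem_Bel.mpr ⟨hz, (hcov z ((mem_GG hS).mp hz).2.2).elim id id⟩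
    exact wilf_of hS (m := 3) (by omega) (by omega)
  · have gp : ∀ {f}, IsPF (Zm S) f → PF a b c f := fun h =>
      pf_of_isPF (hP ▸ h) a0.ne' b0.ne' c0.ne'
    have mul : ∀ q, Zm S q → ∀ n : ℤ, 0 ≤ n → Zm S (n * q) := fun q hq n hn => by
      obtain ⟨m, rfl⟩ := Int.eq_ofNat_of_zero_le hn
      induction m with
      | zero => simpa using Zm_zero
      | succ m ih =>
        push_cast
        rw [add_mul, one_mul]
        exact Zm_add _ _ (ih (by omega)) hq
    have R : Tri a b c := by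
      refine ⟨a0, hab, hbc, ha, hb, hc, fun α hα h => ?_, fun α β hα hβ h => ?_⟩
      · rcases lt_or_ge α 2 with h2 | h2
        · have : α = 0 ∨ α = 1 := by omega
          rcases this with rfl | rfl <;> omega
        · have h3 : 1 * a ≤ (α - 1) * a := mul_le_mul_of_nonneg_right (by omega) a0.le
          exact gens_min hS mb (g.mem a ma) (mul a (g.mem a ma) (α - 1) (by omega)) a0.ne'
            (by omega) (by rw [h]; ring)
      · rcases lt_or_ge 0 α with h3 | h3
        · have h4 : c - a = (α - 1) * a + β * b := by rw [h]; ring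
          exact gens_min hS mc (g.mem a ma) (y := c - a)
            (h4 ▸ Zm_add _ _ (mul a (g.mem a ma) (α - 1) (by omega)) (mul b (g.mem b mb) β hβ))
            a0.ne' (by omega) (by ring)
        · have hα0 : α = 0 := by omega
          subst hα0
          rcases lt_or_ge 0 β with h5 | h5
          · have h4 : c - b = (β - 1) * b := by rw [h]; ring
            exact gens_min hS mc (g.mem b mb) (y := c - b)
              (h4 ▸ mul b (g.mem b mb) (β - 1) (by omega)) b0.ne' (by omega) (by ring)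
          · have : β = 0 := by omega
            subst this
            omega
    have h5 : 5 ≤ embDim (half S) := by
      have key : ∃ M : Finset ℤ, M.card = 5 ∧ ∀ w ∈ M, MG (Cmb a b c) w := by
        rcases two_of_ne a0 b0 c0 (gp h₁) (gp h₂) hne with
          ⟨β₁, γ₁, β₂, γ₂, T⟩ | ⟨β₁, γ₁, β₂, γ₂, T⟩
        · exact five R T o1 o2
        · exact five R T o2 o1
      obtain ⟨M, hM5, hM⟩ := key
      rw [← hM5]
      exact embDim_ge hS fun w hw => hP ▸ hM w hw
    exact wilf_of hS (m := 4) (by omega) (by omega)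

/-- The half of a numerical semigroup of embedding dimension at most three satisfies the
inequality of Wilf. -/
theorem wilf_half_three (hS : {x : ℕ | x ∉ S}.Finite) (h : embDim S ≤ 3) : Wilf (half S) := by
  classical
  rcases Nat.lt_or_ge (embDim (half S)) 4 with h4 | h4
  · exact wilf_three hS (by omega)
  have g := gens_gen hS
  have hcard := card_gens hS
  have hpos := embDim_pos hS
  rcases Nat.lt_or_ge (embDim S) 3 with h3 | h3
  · -- at most two generators
    obtain ⟨a, b, hK⟩ : ∃ a b, ∀ q, q ∈ gens hS ↔ q = a ∨ q = b ∨ q = b := by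
      have h12 : embDim S = 1 ∨ embDim S = 2 := by omega
      rcases h12 with h1 | h2
      · obtain ⟨a, ha⟩ := card_eq_one.mp (hcard.trans h1)
        exact ⟨a, a, fun q => by rw [ha, mem_singleton]; tauto⟩
      · obtain ⟨a, b, -, hK⟩ := card_eq_two.mp (hcard.trans h2)
        exact ⟨a, b, fun q => by rw [hK, mem_insert, mem_singleton]; tauto⟩
    have a0 := g.pos a ((hK a).mpr (Or.inl rfl))
    have b0 := g.pos b ((hK b).mpr (Or.inr (Or.inl rfl)))
    obtain ⟨f, hf, hcov⟩ := at_most_one hS a0 b0 (cmb_of_gen g Zm_zero Zm_add Zm_nonneg hK)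
    have k1 := og_perf hS hf.1
    have k2 : (og hS).card ≤ 2 := by
      refine (card_le_card fun q hq => ((mem_og hS).mp hq).1).trans ?_
      omega
    have k3 : (GG S).card ≤ (Bel (Zm S) (GG S) f).card := card_le_card fun z hz =>
      mem_Bel.mpr ⟨hz, hcov z ((mem_GG hS).mp hz).2.2⟩
    have k4 := Nat.mul_le_mul_right (EE S).card k2
    exact wilf_of hS (m := 3) (by omega) (by omega)
  · obtain ⟨a, b, c, hab, hbc, hK⟩ := sorted3 (hcard.trans (le_antisymm h h3))
    -- at most one odd generator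
    have one : ∀ x : ℤ, (∀ q ∈ gens hS, Odd q → q = x) → (GG S).card ≤ 3 * (EE S).card := by
      intro x hx
      have k2 : (og hS).card ≤ 1 := by
        refine (card_le_card (t := {x}) fun q hq => ?_).trans (card_singleton x).le
        obtain ⟨hq1, hq2⟩ := (mem_og hS).mp hq
        rw [mem_singleton]
        exact hx q hq1 hq2
      have a0 := g.pos a ((hK a).mpr (Or.inl rfl))
      have b0 := g.pos b ((hK b).mpr (Or.inr (Or.inl rfl)))
      have c0 := g.pos c ((hK c).mpr (Or.inr (Or.inr rfl)))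
      obtain ⟨f₁, f₂, h₁, h₂, hcov⟩ := at_most_two hS a0 b0 c0
        (cmb_of_gen g Zm_zero Zm_add Zm_nonneg hK)
      have hG := cover2 (P := Zm S) (G := GG S) (f₁ := f₁) (f₂ := f₂) fun z hz =>
        hcov z ((mem_GG hS).mp hz).2.2
      have k4 := Nat.mul_le_mul_right (EE S).card k2
      have k5 := og_perf hS h₁.1
      have k6 := og_perf hS h₂.1
      omega
    rcases Int.even_or_odd a with ea | oa <;> rcases Int.even_or_odd b with eb | ob <;>
      rcases Int.even_or_odd c with ec | oc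
    · exact wilf_of hS (m := 3) (by omega) (one a fun q hq ho => by
        rcases (hK q).mp hq with rfl | rfl | rfl
        · rfl
        · exact absurd ho (Int.not_odd_iff_even.mpr eb)
        · exact absurd ho (Int.not_odd_iff_even.mpr ec))
    · exact wilf_of hS (m := 3) (by omega) (one c fun q hq ho => by
        rcases (hK q).mp hq with rfl | rfl | rfl
        · exact absurd ho (Int.not_odd_iff_even.mpr ea)
        · exact absurd ho (Int.not_odd_iff_even.mpr eb)
        · rfl)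
    · exact wilf_of hS (m := 3) (by omega) (one b fun q hq ho => by
        rcases (hK q).mp hq with rfl | rfl | rfl
        · exact absurd ho (Int.not_odd_iff_even.mpr ea)
        · rfl
        · exact absurd ho (Int.not_odd_iff_even.mpr ec))
    · exact wilf_of hS (m := 3) (by omega) (twoOdd hS hK ea ob oc hbc)
    · exact wilf_of hS (m := 3) (by omega) (one a fun q hq ho => by
        rcases (hK q).mp hq with rfl | rfl | rfl
        · rfl
        · exact absurd ho (Int.not_odd_iff_even.mpr eb)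
        · exact absurd ho (Int.not_odd_iff_even.mpr ec))
    · exact wilf_of hS (m := 3) (by omega) (twoOdd hS (a := b) (b := a) (c := c)
        (fun q => (hK q).trans (by tauto)) eb oa oc (hab.trans hbc))
    · exact wilf_of hS (m := 3) (by omega) (twoOdd hS (a := c) (b := a) (c := b)
        (fun q => (hK q).trans (by tauto)) ec oa ob hab)
    · exact threeOdd hS hK hab hbc oa ob oc h4

end Few

/-! ## Symmetric semigroups -/

section Sym

variable {S : AddSubmonoid ℕ}

theorem not_frob (_hS : {x : ℕ | x ∉ S}.Finite) : ¬ Zm S (frob S) := by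
  rw [frob_eq]
  rcases Nat.eq_zero_or_pos (cond S) with h0 | h0
  · rw [h0]
    intro h
    have := Zm_nonneg _ h
    simp at this
  · have h1 : ((cond S : ℤ) - 1) = ((cond S - 1 : ℕ) : ℤ) := by omega
    rw [h1, Zm_nat]
    exact cond_pred h0

theorem wilf_half_sym (hS : {x : ℕ | x ∉ S}.Finite) (hsym : Symmetric S) (h : embDim S ≤ 4) :
    Wilf (half S) := by
  classical
  rcases Nat.lt_or_ge (embDim (half S)) 4 with h4 | h4
  · exact wilf_three hS (by omega)
  rcases Nat.lt_or_ge (EE S).card 2 with h1 | h2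
  · exact wilf_small hS (by omega)
  have g := gens_gen hS
  have hcard := card_gens hS
  have hf := not_frob hS
  have k3 : (GG S).card ≤ (Bel (Zm S) (GG S) (frob S)).card := card_le_card fun z hz =>
    mem_Bel.mpr ⟨hz, hsym z ((mem_GG hS).mp hz).2.2⟩
  have sub : og hS ⊆ gens hS := fun q hq => ((mem_og hS).mp hq).1
  rcases Nat.lt_or_ge (og hS).card 4 with h5 | h5
  · have k1 := og_perf hS hf
    have k4 := Nat.mul_le_mul_right (EE S).card (show (og hS).card ≤ 3 by omega)
    exact wilf_of hS (m := 3) (by omega) (by omega)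
  · have h6 : og hS = gens hS := eq_of_subset_of_card_le sub (by omega)
    have hodd : ∀ q ∈ gens hS, Odd q := fun q hq => ((mem_og hS).mp (h6 ▸ hq)).2
    have hne : (gens hS).Nonempty := card_pos.mp (by
      have := card_le_card sub
      omega)
    have ma := (gens hS).min'_mem hne
    set a := (gens hS).min' hne with ha
    have hmin : ∀ q ∈ gens hS, a ≤ q := fun q hq => (gens hS).min'_le q hq
    have h2a := two_mem hS ma hmin hodd h2
    have hK4 : (gens hS).card = 4 := by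
      have := card_le_card sub
      omega
    have h7 : 1 < ((gens hS).erase a).card := by
      rw [card_erase_of_mem ma]
      omega
    obtain ⟨d, hd, q₀, hq, hne'⟩ := one_lt_card.mp h7
    obtain ⟨hda, hdK⟩ := mem_erase.mp hd
    obtain ⟨hqa, hqK⟩ := mem_erase.mp hq
    have k5 : (Bel (Zm S) (GG S) (frob S)).card ≤ 3 * (EE S).card := by
      rcases Int.even_or_odd (frob S) with he | ho
      · have := (ctx hS).even hf he
        omega
      · have := allOdd (ctx hS) (fun q hq => ⟨g.mem q hq, hodd q hq⟩) g.gen ma hdK hqK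
          (g.pos a ma) (lt_of_le_of_ne (hmin d hdK) hda.symm) hqa hne'.symm h2a hf ho
        rwa [hK4] at this
    exact wilf_of hS (m := 3) (by omega) (by omega)

end Sym

end Pool.Agent.Helper74.WH
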