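import Pool.Agent.Helper74.WH.Base
import Pool.Agent.Helper74.WH.Herzog

/-!
# Two odd generators and two odd pseudo-Frobenius numbers
-/

set_option autoImplicit false

namespace Pool.Agent.Helper74.WH

open Finset

theorem mul_odd_mod {β b : ℤ} (hb : Odd b) : (β * b) % 2 = β % 2 := by
  obtain ⟨k, rfl⟩ := hb
  have : β * (2 * k + 1) = β + 2 * (β * k) := by ring
  rw [this]
  omega

theorem mul_even_mod {β b : ℤ} (hb : Even b) : (β * b) % 2 = 0 := by
  obtain ⟨k, rfl⟩ := hb
  have : β * (k + k) = 2 * (β * k) := by ring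
  rw [this]
  omega

/-- a counting lemma -/
theorem card_le_of_rel {α β : Type} {A : Finset α} {E : Finset β} [Nonempty β] (r : α → β → Prop)
    (h1 : ∀ z ∈ A, ∃ e ∈ E, r z e) (h2 : ∀ z z' e, r z e → r z' e → z = z') :
    A.card ≤ E.card := by
  choose! g hg hr using h1
  refine card_le_card_of_injOn g hg fun z hz z' hz' hzz => h2 z z' (g z) (hr z hz) ?_
  have hzz' : g z = g z' := hzz
  rw [hzz']
  exact hr z' hz'

theorem merge {a b c f₁ f₂ β₁ γ₁ β₂ γ₂ : ℤ} {G E : Finset ℤ} (C : Ctx (Cmb a b c) G E)
    (T : Two a b c f₁ f₂ β₁ γ₁ β₂ γ₂) (ha : Even a) (hb : Odd b) (hc : Odd c) (hbc : b < c)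
    (h₁ : Odd f₁) (h₂ : Odd f₂) (hcov : ∀ z ∈ G, Cmb a b c (f₁ - z) ∨ Cmb a b c (f₂ - z)) :
    G.card ≤ 3 * E.card := by
  classical
  obtain ⟨x, y, X⟩ := T.herz
  have hβ := T.hβ
  have hγ := T.hγ
  have b2 := T.n₂.β0
  have g1 := T.n₁.γ0
  have x1 := X.x1
  have Pb : Cmb a b c b := Cmb.mk 0 1 0 le_rfl (by omega) le_rfl (by ring)
  have Pc : Cmb a b c c := Cmb.mk 0 0 1 le_rfl le_rfl (by omega) (by ring)
  -- parities
  have ea : a % 2 = 0 := Int.even_iff.mp ha
  have eb : b % 2 = 1 := Int.odd_iff.mp hb
  have ec : c % 2 = 1 := Int.odd_iff.mp hc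
  have ef₁ : f₁ % 2 = 1 := Int.odd_iff.mp h₁
  have ef₂ : f₂ % 2 = 1 := Int.odd_iff.mp h₂
  have pγ : γ₂ % 2 = 0 ∧ γ₁ % 2 = 1 := by
    have e1 := T.n₁.eq
    have e2 := T.n₂.eq
    have e3 := X.rb
    have e4 := X.rc
    have q1 := mul_odd_mod (β := β₁) hb
    have q2 := mul_odd_mod (β := γ₁) hc
    have q3 := mul_odd_mod (β := β₂) hb
    have q4 := mul_odd_mod (β := γ₂) hc
    have q5 := mul_odd_mod (β := β₁ + 1) hb
    have q6 := mul_odd_mod (β := γ₂ - γ₁) hc
    have q7 := mul_even_mod (β := x) ha
    have q8 := mul_odd_mod (β := γ₂ + 1) hc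
    have q9 := mul_odd_mod (β := β₁ - β₂) hb
    have q10 := mul_even_mod (β := y) ha
    constructor <;> omega
  -- odd elements
  have hodd : ∀ z, Cmb a b c z → Odd z → Cmb a b c (z - b) ∨ Cmb a b c (z - c) := by
    rintro z ⟨α, β, γ, hα, hβ, hγ, rfl⟩ hz
    rcases lt_or_ge 0 β with h0 | h0
    · left
      exact Cmb.mk α (β - 1) γ hα (by omega) hγ (by ring)
    · right
      refine Cmb.mk α β (γ - 1) hα hβ ?_ (by ring)
      have q1 := mul_even_mod (β := α) ha
      have q2 := mul_odd_mod (β := γ) hc
      have q3 := mul_odd_mod (β := β) hb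
      have := Int.odd_iff.mp hz
      omega
  have oddz : ∀ {f z : ℤ}, Odd f → z ∈ G → Odd (f - z) := fun hf hz =>
    hf.sub_even ((C.mG _).mp hz).2.1
  rcases eq_or_ne (γ₂ - γ₁) 1 with hv | hv
  · -- the first number is primary
    have hA : (Bel (Cmb a b c) G f₁).card ≤ 2 * E.card := by
      have := C.perf (Q := {b, c}) (f := f₁) (fun q hq => ?_) (fun z hz ho => ?_) ⟨b, by simp⟩
        T.pf₁.not
      · rwa [card_pair hbc.ne] at this
      · rcases mem_insert.mp hq with rfl | hq
        · exact ⟨Pb, hb⟩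
        · rw [mem_singleton.mp hq]
          exact ⟨Pc, hc⟩
      · rcases hodd z hz ho with h | h
        · exact ⟨b, by simp, h⟩
        · exact ⟨c, by simp, h⟩
    have hB : (G \ Bel (Cmb a b c) G f₁).card ≤ E.card := by
      refine C.cls T.pf₂.not Pb (h₂.sub_odd hb) _ sdiff_subset fun z hz => ?_
      obtain ⟨hzG, hzB⟩ := mem_sdiff.mp hz
      have h1 : ¬ Cmb a b c (f₁ - z) := fun h => hzB (mem_Bel.mpr ⟨hzG, h⟩)
      have h2 := (hcov z hzG).resolve_left h1
      refine (hodd _ h2 (oddz h₂ hzG)).resolve_right fun h3 => h1 ?_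
      have h4 := h3.add (Cmb.mk (a := a) (b := b) (c := c) 0 (β₁ - β₂) 0 le_rfl (by omega) le_rfl
        rfl)
      have e1 : f₂ - z - c + (0 * a + (β₁ - β₂) * b + 0 * c) = f₁ - z := by
        linear_combination T.n₂.eq - T.n₁.eq + c * hv
      rwa [e1] at h4
    have h1 := card_sdiff_add_card_inter G (Bel (Cmb a b c) G f₁)
    rw [inter_eq_right.mpr (Bel_sub f₁)] at h1
    omega
  · -- the second number is primary
    have hγ2 : 4 ≤ γ₂ := by omega
    set S := Cmb a b c with hS
    set A1 := G.filter fun z => S (f₂ - z - c) with hA1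
    set A3 := G.filter fun z => S (f₁ - z - b) with hA3
    set A2 := G.filter fun z => ¬ S (f₂ - z - c) ∧ (S (f₂ - z) ∨ ¬ S (f₁ - z - b)) with hA2
    have c1 : A1.card ≤ E.card := C.cls T.pf₂.not Pc (h₂.sub_odd hc) _ (filter_subset _ _)
      fun z hz => (mem_filter.mp hz).2
    have c3 : A3.card ≤ E.card := C.cls T.pf₁.not Pb (h₁.sub_odd hb) _ (filter_subset _ _)
      fun z hz => (mem_filter.mp hz).2
    have c2 : A2.card ≤ E.card := by
      refine card_le_of_rel (fun z e => (e = f₂ - z - b ∧ ¬ S (e + b - c)) ∨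
        (e = f₁ - z - c ∧ ¬ S (e + c - b) ∧ S (e + b - c)) ∨
        (S (f₁ - z - c) ∧ e = f₁ - z - c + b + c)) (fun z hz => ?_) ?_
      · obtain ⟨hzG, hz1, hz2⟩ := mem_filter.mp hz
        by_cases h2 : S (f₂ - z)
        · -- from the second number
          have h3 := (hodd _ h2 (oddz h₂ hzG)).resolve_right hz1
          refine ⟨f₂ - z - b, C.lab T.pf₂.not hzG Pb h3 ((oddz h₂ hzG).sub_odd hb) (by ring),
            Or.inl ⟨rfl, ?_⟩⟩
          have e1 : f₂ - z - b + b - c = f₂ - z - c := by ring
          rwa [e1]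
        · have h3 := hz2.resolve_left h2
          have h4 := (hcov z hzG).resolve_right h2
          have h5 := (hodd _ h4 (oddz h₁ hzG)).resolve_left h3
          have h6 : ¬ S (f₁ - z - c + c - b) := by
            have e1 : f₁ - z - c + c - b = f₁ - z - b := by ring
            rwa [e1]
          have hev : Even (f₁ - z - c) := (oddz h₁ hzG).sub_odd hc
          by_cases h7 : S (f₁ - z - c + b - c)
          · exact ⟨f₁ - z - c, C.lab T.pf₁.not hzG Pc h5 hev (by ring),
              Or.inr (Or.inl ⟨rfl, h6, h7⟩)⟩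
          · refine ⟨f₁ - z - c + b + c, ?_, Or.inr (Or.inr ⟨h5, rfl⟩)⟩
            -- a multiple of `a`
            obtain ⟨α, β, γ, hα, hβ', hγ', hrep⟩ := h5
            have hβ0 : β = 0 := by
              by_contra h0
              exact h6 (Cmb.mk α (β - 1) (γ + 1) hα (by omega) (by omega)
                (by linear_combination hrep))
            have hγ0 : γ = 0 := by
              by_contra h0
              exact h7 (Cmb.mk α (β + 1) (γ - 1) hα (by omega) (by omega)
                (by linear_combination hrep))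
            rw [hβ0, hγ0] at hrep
            have hαx : α < x := by
              by_contra h0
              exact h2 (Cmb.mk (α - x) (β₂ + 1) 1 (by omega) (by omega) (by omega)
                (by linear_combination hrep + T.n₂.eq - T.n₁.eq - X.rb))
            refine (C.mE _).mpr ⟨?_, ?_, α * a + (γ₂ - 1) * c - b, (C.mG _).mpr ⟨?_, ?_, ?_⟩, ?_⟩
            · have e1 : f₁ - z - c + b + c = (f₁ - z - c) + (b + c) := by ring
              rw [e1]
              exact hev.add (hb.add_odd hc)
            · exact Cmb.mk α 1 1 hα (by omega) (by omega) (by linear_combination hrep)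
            · have k1 : 0 ≤ α * a := mul_nonneg hα T.a0.le
              have k2 : 3 * c ≤ (γ₂ - 1) * c := mul_le_mul_of_nonneg_right (by omega) T.c0.le
              have := T.c0
              omega
            · have q1 := mul_even_mod (β := α) ha
              have q2 := mul_odd_mod (β := γ₂ - 1) hc
              rw [Int.even_iff]
              omega
            · intro h8
              have h9 := h8.add (Cmb.mk (a := a) (b := b) (c := c) (x - 1 - α) 0 1 (by omega)
                le_rfl (by omega) rfl)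
              have e1 : α * a + (γ₂ - 1) * c - b + ((x - 1 - α) * a + 0 * b + 1 * c) = f₁ := by
                linear_combination -T.n₁.eq - X.rb
              rw [e1] at h9
              exact T.pf₁.not h9
            · have k2 : 3 * c ≤ (γ₂ - 1) * c := mul_le_mul_of_nonneg_right (by omega) T.c0.le
              have e1 : f₁ - z - c = α * a := by linear_combination hrep
              rw [e1]
              omega
      · have key1 : ∀ e e' : ℤ, S e' → e = e' + b + c → S (e + b - c) := fun e e' he' h =>
          (he'.add (Cmb.mk (a := a) (b := b) (c := c) 0 2 0 le_rfl (by omega) le_rfl rfl) :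
            Cmb a b c _) |> fun hh => by
              have e1 : e' + (0 * a + 2 * b + 0 * c) = e + b - c := by rw [h]; ring
              rwa [e1] at hh
        have key2 : ∀ e e' : ℤ, S e' → e = e' + b + c → S (e + c - b) := fun e e' he' h =>
          (he'.add (Cmb.mk (a := a) (b := b) (c := c) 0 0 2 le_rfl le_rfl (by omega) rfl) :
            Cmb a b c _) |> fun hh => by
              have e1 : e' + (0 * a + 0 * b + 2 * c) = e + c - b := by rw [h]; ring
              rwa [e1] at hh
        rintro z z' e (⟨u1, u2⟩ | ⟨u1, u2, u3⟩ | ⟨u1, u2⟩) (⟨v1, v2⟩ | ⟨v1, v2, v3⟩ | ⟨v1, v2⟩)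
        · omega
        · exact absurd v3 u2
        · exact absurd (key1 _ _ v1 v2) u2
        · exact absurd u3 v2
        · omega
        · exact absurd (key2 _ _ v1 v2) u2
        · exact absurd (key1 _ _ u1 u2) v2
        · exact absurd (key2 _ _ u1 u2) v2
        · omega
    have hcovG : G ⊆ A1 ∪ A2 ∪ A3 := by
      intro z hz
      by_cases k1 : S (f₂ - z - c)
      · exact mem_union_left _ (mem_union_left _ (mem_filter.mpr ⟨hz, k1⟩))
      · by_cases k2 : S (f₁ - z - b)
        · exact mem_union_right _ (mem_filter.mpr ⟨hz, k2⟩)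
        · exact mem_union_left _ (mem_union_right _ (mem_filter.mpr ⟨hz, k1, Or.inr k2⟩))
    have h1 := (card_le_card hcovG).trans ((card_union_le _ _).trans
      (Nat.add_le_add_right (card_union_le _ _) _))
    omega

end Pool.Agent.Helper74.WH
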