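import Pool.Agent.Helper74.WH.Main

/-!
# Odd pseudo-Frobenius numbers
-/

set_option autoImplicit false

namespace Pool.Agent.Helper74.WH

open Finset

variable {S : AddSubmonoid ℕ}

theorem mult_mem (hS : {x : ℕ | x ∉ S}.Finite) : mult S ∈ S ∧ mult S ≠ 0 := by
  have hne : {x : ℕ | x ∈ S ∧ x ≠ 0}.Nonempty :=
    ⟨cond S + 1, cond_spec hS _ (by omega), by omega⟩
  exact Nat.sInf_mem hne

theorem mult_le {x : ℕ} (hx : x ∈ S) (h0 : x ≠ 0) : mult S ≤ x := Nat.sInf_le ⟨hx, h0⟩

/-- the case of Kaplan -/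
theorem wilf_two_mult (hS : {x : ℕ | x ∉ S}.Finite) (hc : cond (half S) ≤ 2 * mult (half S)) :
    Wilf (half S) := by
  classical
  rcases Nat.lt_or_ge (EE S).card 2 with h1 | h2
  · exact wilf_small hS (by omega)
  have hT := half_fin hS
  have hsum := card_sum (S := S)
  set T := half S with hTdef
  set c := cond T with hcdef
  set m := mult T with hmdef
  obtain ⟨hm1, hm0⟩ := mult_mem hT
  set B := (range c).filter fun x => x ∈ T with hB
  have hBc : B.card = (EE S).card := by
    rw [EE, card_image_of_injective _ two_inj]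
  set A := B.erase 0 with hA
  have hAc : A.card + 1 = B.card := by
    have h0 : 0 ∈ B := mem_filter.mpr ⟨mem_range.mpr (by omega), T.zero_mem⟩
    exact card_erase_add_one h0
  have memA : ∀ x, x ∈ A ↔ x ≠ 0 ∧ x < c ∧ x ∈ T := fun x => by
    rw [hA, mem_erase, hB, mem_filter, mem_range]
  let f : Sym2 ℕ → ℕ := Sym2.lift ⟨fun x y => x + y, fun x y => add_comm x y⟩
  set I := A.sym2.image f with hI
  have hIc : I.card ≤ (A.card + 1).choose 2 := card_image_le.trans (card_sym2 A).le
  have hsub : A ∪ (Ico c (c + m) \ I) ⊆ (minGens_fin hT).toFinset := by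
    intro x hx
    rw [Set.Finite.mem_toFinset]
    rcases mem_union.mp hx with hx | hx
    · obtain ⟨h0, hlt, hxT⟩ := (memA x).mp hx
      refine ⟨hxT, h0, fun y hy z hz hy0 hz0 hyz => ?_⟩
      have := mult_le hy hy0
      have := mult_le hz hz0
      omega
    · obtain ⟨hx1, hx2⟩ := mem_sdiff.mp hx
      rw [mem_Ico] at hx1
      have h3 : c ≠ 0 := by omega
      refine ⟨cond_spec hT x hx1.1, by omega, fun y hy z hz hy0 hz0 hyz => hx2 ?_⟩
      have := mult_le hy hy0
      have := mult_le hz hz0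
      refine mem_image.mpr ⟨s(y, z), mk_mem_sym2_iff.mpr ⟨(memA y).mpr ⟨hy0, by omega, hy⟩,
        (memA z).mpr ⟨hz0, by omega, hz⟩⟩, ?_⟩
      exact hyz
  have hdisj : Disjoint A (Ico c (c + m) \ I) := by
    rw [disjoint_left]
    intro x hx hx'
    have h3 := ((memA x).mp hx).2.1
    have h4 := (mem_Ico.mp (mem_sdiff.mp hx').1).1
    omega
  have he : A.card + (m - I.card) ≤ embDim T := by
    have h3 := card_le_card hsub
    rw [card_union_of_disjoint hdisj] at h3
    have h4 := le_card_sdiff I (Ico c (c + m))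
    rw [Nat.card_Ico, show c + m - c = m by omega] at h4
    have h5 : (minGens_fin hT).toFinset.card = embDim T :=
      (Set.ncard_eq_toFinset_card _ (minGens_fin hT)).symm
    omega
  have hch : 2 * (A.card + 1).choose 2 = (A.card + 1) * A.card := by
    rw [Nat.choose_two_right, Nat.add_sub_cancel]
    exact Nat.mul_div_cancel' (by
      rw [mul_comm]
      exact (Nat.even_mul_succ_self A.card).two_dvd)
  set a := A.card with ha
  set w := (a + 1).choose 2 with hw
  have hEc : (EE S).card = a + 1 := by omega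
  have ha1 : 1 ≤ a := by omega
  have key : c ≤ embDim T * (a + 1) := by
    rcases Nat.lt_or_ge w m with h3 | h3
    · -- many residues
      obtain ⟨r, hr⟩ := Nat.exists_eq_add_of_le h3.le
      have h5 : a + r ≤ embDim T := by omega
      have h6 : (a + r) * (a + 1) ≤ embDim T * (a + 1) := Nat.mul_le_mul_right _ h5
      have h7 : r * 2 ≤ r * (a + 1) := Nat.mul_le_mul_left r (by omega)
      have h8 : (a + r) * (a + 1) = (a + 1) * a + r * (a + 1) := by ring
      omega
    · have h4 : a * (a + 1) ≤ embDim T * (a + 1) := Nat.mul_le_mul_right _ (by omega)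
      have h5 : a * (a + 1) = (a + 1) * a := mul_comm _ _
      omega
  have hpos := embDim_pos hT
  have hm : embDim T - 1 + 1 ≤ embDim (half S) := by
    rw [← hTdef]
    omega
  refine wilf_of hS hm ?_
  rw [hEc] at hsum ⊢
  obtain ⟨e, he'⟩ := Nat.exists_eq_add_of_le hpos
  rw [he'] at key ⊢
  have e1 : 0 + 1 + e - 1 = e := by omega
  rw [e1]
  nlinarith

/-! ## Pseudo-Frobenius numbers -/

theorem mem_pseudoFrob {f : ℤ} : f ∈ pseudoFrob S ↔ IsPF (Zm S) f := by
  constructor
  · rintro ⟨h1, h2⟩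
    refine ⟨h1, ?_⟩
    rintro s ⟨s, hs, rfl⟩ h0
    exact h2 s hs (by exact_mod_cast h0)
  · rintro ⟨h1, h2⟩
    exact ⟨h1, fun s hs h0 => h2 s (Zm_nat.mpr hs) (by exact_mod_cast h0)⟩

theorem pf_fin (hS : {x : ℕ | x ∉ S}.Finite) : (pseudoFrob S).Finite := by
  obtain ⟨N, hN⟩ := Zm_big hS
  refine (Set.finite_Icc (-(max N 1)) N).subset fun f hf => ?_
  obtain ⟨h1, h2⟩ := mem_pseudoFrob.mp hf
  constructor
  · have h3 := Zm_nonneg _ (h2 (max N 1) (hN _ (le_max_left _ _)) (by
      have := le_max_right N 1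
      omega))
    omega
  · by_contra h
    exact h1 (hN f (not_le.mp h).le)

/-- the gaps above an odd element -/
theorem odd_count (hS : {x : ℕ | x ∉ S}.Finite) (hodd : ∀ f ∈ pseudoFrob S, Odd f) {q : ℕ}
    (hq : q ∈ S) (hqo : Odd q) :
    (GG S).card ≤ (pseudoFrob S).ncard * (EE S).card + {y : ℕ | y ∉ half S ∧ y < q}.ncard := by
  classical
  have C := ctx hS
  have Pq : Zm S (q : ℤ) := Zm_nat.mpr hq
  have oq : Odd (q : ℤ) := by exact_mod_cast hqo
  set G1 := (GG S).filter fun z => z < 2 * (q : ℤ) with hG1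
  set G2 := (GG S).filter fun z => ¬ z < 2 * (q : ℤ) with hG2
  have hsplit : G1.card + G2.card = (GG S).card := card_filter_add_card_filter_not _
  have h1 : G1.card ≤ {y : ℕ | y ∉ half S ∧ y < q}.ncard := by
    rw [← Set.ncard_coe_finset, ← Set.ncard_image_of_injective {y : ℕ | y ∉ half S ∧ y < q} two_inj]
    refine Set.ncard_le_ncard (fun z hz => ?_) ?_
    · obtain ⟨hz1, hz2⟩ := mem_filter.mp (mem_coe.mp hz)
      obtain ⟨y, hy, rfl⟩ := mem_image.mp hz1
      obtain ⟨-, hy2⟩ := mem_filter.mp hy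
      have hz3 : 2 * (y : ℤ) < 2 * (q : ℤ) := hz2
      exact ⟨y, ⟨hy2, by omega⟩, rfl⟩
    · exact Set.Finite.image _ ((Set.finite_Iio q).subset fun y hy => hy.2)
  have h2 : G2.card ≤ (pseudoFrob S).ncard * (EE S).card := by
    rw [Set.ncard_eq_toFinset_card _ (pf_fin hS)]
    set Φ := (pf_fin hS).toFinset with hΦ
    have hcov : G2 ⊆ Φ.biUnion fun f => G2.filter fun z => Zm S (f - (z - q)) := by
      intro z hz
      obtain ⟨hz1, hz2⟩ := mem_filter.mp hz
      have hz3 := ((mem_GG hS).mp hz1).2.2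
      have h3 : ¬ Zm S (z - q) := fun h => hz3 (by
        have := Zm_add _ _ h Pq
        rwa [sub_add_cancel] at this)
      obtain ⟨f, hf, hfz⟩ := exists_pf_Zm hS h3
      exact mem_biUnion.mpr ⟨f, (pf_fin hS).mem_toFinset.mpr (mem_pseudoFrob.mpr hf),
        mem_filter.mpr ⟨hz, hfz⟩⟩
    refine (card_le_card hcov).trans (card_biUnion_le_card_mul _ _ _ fun f hf => ?_)
    have hf' := (pf_fin hS).mem_toFinset.mp hf
    have hfo := hodd f hf'
    have hfP := (mem_pseudoFrob.mp hf').1
    refine card_le_card_of_injOn (fun z => f - (z - q)) (fun z hz => ?_) fun z _ z' _ hzz => ?_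
    · obtain ⟨hz1, hz2⟩ := mem_filter.mp hz
      obtain ⟨hz3, hz4⟩ := mem_filter.mp hz1
      obtain ⟨hz5, hz6, hz7⟩ := (mem_GG hS).mp hz3
      have hev : Even (f - (z - q)) := by
        have : f - (z - q) = (f + q) - z := by ring
        rw [this]
        exact (hfo.add_odd oq).sub hz6
      refine (mem_EE hS).mpr ⟨hev, hz2, z - 2 * q + (f - (z - q)), (mem_GG hS).mpr ⟨?_, ?_, ?_⟩,
        ?_⟩
      · have := Zm_nonneg _ hz2
        have h3 : z ≠ 2 * (q : ℤ) := fun h => hz7 (by
          rw [h, two_mul]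
          exact Zm_add _ _ Pq Pq)
        omega
      · exact (hz6.sub (even_two_mul _)).add hev
      · intro h
        apply hfP
        have h3 := Zm_add _ _ h Pq
        have e1 : z - 2 * q + (f - (z - q)) + q = f := by ring
        rwa [e1] at h3
      · have h3 : z ≠ 2 * (q : ℤ) := fun h => hz7 (by
          rw [h, two_mul]
          exact Zm_add _ _ Pq Pq)
        show f - (z - q) < z - 2 * q + (f - (z - q))
        omega
    · have : f - (z - q) = f - (z' - q) := hzz
      omega
  omega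

/-- odd pseudo-Frobenius numbers -/
theorem wilf_half_odd (hS : {x : ℕ | x ∉ S}.Finite) (hodd : ∀ f ∈ pseudoFrob S, Odd f) {q : ℕ}
    (hq : q ∈ S) (hqo : Odd q) (hh : {y : ℕ | y ∉ half S ∧ y < q}.ncard ≤ mult (half S))
    (ht : (pseudoFrob S).ncard = 1 ∨ 2 * (pseudoFrob S).ncard + 2 ≤ embDim (half S)) :
    Wilf (half S) := by
  rcases Nat.lt_or_ge (embDim (half S)) 4 with h4 | h4
  · exact wilf_three hS (by omega)
  rcases Nat.lt_or_ge (2 * mult (half S)) (cond (half S)) with h1 | h1
  · have h2 := odd_count hS hodd hq hqo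
    have h3 := card_sum (S := S)
    refine wilf_of hS (m := embDim (half S) - 1) (by omega) ?_
    by_contra hlt
    set t := (pseudoFrob S).ncard with htdef
    set h := {y : ℕ | y ∉ half S ∧ y < q}.ncard with hdef
    set n := (EE S).card with hn
    have h5 : 2 * t + 2 ≤ embDim (half S) := by omega
    have h6 : (2 * t + 1) * n ≤ (embDim (half S) - 1) * n := Nat.mul_le_mul_right _ (by omega)
    have h7 : (2 * t + 1) * n = 2 * (t * n) + n := by ring
    omega
  · exact wilf_two_mult hS h1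

end Pool.Agent.Helper74.WH
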