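import Pool.Agent.Helper74.WH.Defs
import Pool.Agent.Helper74.WH.AllOdd
import Pool.Agent.Helper74.WH.Five

/-!
# Numerical semigroups and their halves
-/

set_option autoImplicit false

namespace Pool.Agent.Helper74.WH

open Finset

section Basic

variable {S : AddSubmonoid ℕ}

theorem Zm_nat {x : ℕ} : Zm S x ↔ x ∈ S := by
  constructor
  · rintro ⟨s, hs, h⟩
    rwa [← Nat.cast_injective h]
  · exact fun h => ⟨x, h, rfl⟩

theorem Zm_zero : Zm S 0 := ⟨0, S.zero_mem, rfl⟩

theorem Zm_add (x y : ℤ) (hx : Zm S x) (hy : Zm S y) : Zm S (x + y) := by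
  obtain ⟨s, hs, rfl⟩ := hx
  obtain ⟨t, ht, rfl⟩ := hy
  exact ⟨s + t, S.add_mem hs ht, by push_cast; rfl⟩

theorem Zm_nonneg (x : ℤ) (hx : Zm S x) : 0 ≤ x := by
  obtain ⟨s, _, rfl⟩ := hx
  positivity

/-- the conductor -/
noncomputable def cond (S : AddSubmonoid ℕ) : ℕ := sInf {c : ℕ | ∀ x, c ≤ x → x ∈ S}

theorem frob_eq : frob S = (cond S : ℤ) - 1 := rfl

theorem cond_spec (hS : {x : ℕ | x ∉ S}.Finite) : ∀ x, cond S ≤ x → x ∈ S := by
  have hne : {c : ℕ | ∀ x, c ≤ x → x ∈ S}.Nonempty := by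
    obtain ⟨N, hN⟩ := hS.bddAbove
    refine ⟨N + 1, fun x hx => ?_⟩
    by_contra h
    have := hN h
    omega
  exact Nat.sInf_mem hne

theorem cond_pred (h : 0 < cond S) : cond S - 1 ∉ S := by
  intro hmem
  have h1 : ¬ (cond S - 1) ∈ {c : ℕ | ∀ x, c ≤ x → x ∈ S} :=
    Nat.notMem_of_lt_sInf (show cond S - 1 < cond S by omega)
  have hne : {c : ℕ | ∀ x, c ≤ x → x ∈ S}.Nonempty := by
    by_contra hemp
    rw [Set.not_nonempty_iff_eq_empty] at hemp
    have : cond S = 0 := by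
      unfold cond
      rw [hemp, Nat.sInf_empty]
    omega
  have hc : ∀ x, cond S ≤ x → x ∈ S := Nat.sInf_mem hne
  apply h1
  intro x hx
  rcases eq_or_lt_of_le hx with rfl | hlt
  · exact hmem
  · exact hc x (by omega)

theorem half_fin (hS : {x : ℕ | x ∉ S}.Finite) : {x : ℕ | x ∉ half S}.Finite := by
  refine Set.Finite.of_injOn (f := fun x => 2 * x) (fun x hx => ?_) (fun x _ y _ hxy => ?_) hS
  · exact hx
  · have : 2 * x = 2 * y := hxy
    omega

theorem Zm_big (hS : {x : ℕ | x ∉ S}.Finite) : ∃ N, ∀ x, N ≤ x → Zm S x := by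
  refine ⟨cond S, fun x hx => ?_⟩
  obtain ⟨n, rfl⟩ := Int.eq_ofNat_of_zero_le ((Nat.cast_nonneg (cond S)).trans hx)
  exact Zm_nat.mpr (cond_spec hS n (by exact_mod_cast hx))

/-- every nonzero element has a minimal generator -/
theorem exists_gen : ∀ (n s : ℕ), s ≤ n → s ∈ S → s ≠ 0 →
    ∃ q ∈ minGens S, ∃ t ∈ S, s = q + t := by
  intro n
  induction n with
  | zero =>
    intro s hs _ h0
    omega
  | succ n ih =>
    intro s hs hS h0
    by_cases hmin : s ∈ minGens S
    · exact ⟨s, hmin, 0, S.zero_mem, rfl⟩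
    · have h1 : ¬ ∀ y ∈ S, ∀ z ∈ S, y ≠ 0 → z ≠ 0 → y + z ≠ s := fun h => hmin ⟨hS, h0, h⟩
      push Not at h1
      obtain ⟨y, hy, z, hz, hy0, hz0, hyz⟩ := h1
      obtain ⟨q, hq, t, ht, hyq⟩ := ih y (by omega) hy hy0
      exact ⟨q, hq, t + z, S.add_mem ht hz, by omega⟩

theorem minGens_fin (hS : {x : ℕ | x ∉ S}.Finite) : (minGens S).Finite := by
  refine (Set.finite_Iio (2 * (cond S + 1))).subset fun x hx => ?_
  by_contra h
  have h1 : 2 * (cond S + 1) ≤ x := not_lt.mp h
  exact hx.2.2 (cond S + 1) (cond_spec hS _ (by omega)) (x - (cond S + 1))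
    (cond_spec hS _ (by omega)) (by omega) (by omega) (by omega)

/-- the minimal generators as integers -/
noncomputable def gens (hS : {x : ℕ | x ∉ S}.Finite) : Finset ℤ :=
  (minGens_fin hS).toFinset.map Nat.castEmbedding

theorem mem_gens (hS : {x : ℕ | x ∉ S}.Finite) {q : ℤ} :
    q ∈ gens hS ↔ ∃ x ∈ minGens S, (x : ℤ) = q := by
  simp [gens]

theorem card_gens (hS : {x : ℕ | x ∉ S}.Finite) : (gens hS).card = embDim S := by
  rw [gens, card_map, embDim, Set.ncard_eq_toFinset_card _ (minGens_fin hS)]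

/-- a generating set of positive integers -/
structure Gen (P : ℤ → Prop) (K : Finset ℤ) : Prop where
  mem : ∀ q ∈ K, P q
  pos : ∀ q ∈ K, 0 < q
  gen : ∀ s, P s → s = 0 ∨ ∃ q ∈ K, P (s - q)

theorem gens_gen (hS : {x : ℕ | x ∉ S}.Finite) : Gen (Zm S) (gens hS) := by
  refine ⟨fun q hq => ?_, fun q hq => ?_, fun s hs => ?_⟩
  · obtain ⟨x, hx, rfl⟩ := (mem_gens hS).mp hq
    exact Zm_nat.mpr hx.1
  · obtain ⟨x, hx, rfl⟩ := (mem_gens hS).mp hq
    have := hx.2.1
    omega
  · obtain ⟨s, hs, rfl⟩ := hs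
    rcases eq_or_ne s 0 with h0 | h0
    · left
      rw [h0]
      rfl
    · right
      obtain ⟨q, hq, t, ht, h⟩ := exists_gen s s le_rfl hs h0
      refine ⟨q, (mem_gens hS).mpr ⟨q, hq, rfl⟩, t, ht, ?_⟩
      rw [h]
      push_cast
      ring

/-- minimality -/
theorem gens_min (hS : {x : ℕ | x ∉ S}.Finite) {q : ℤ} (hq : q ∈ gens hS) {x y : ℤ}
    (hx : Zm S x) (hy : Zm S y) (hx0 : x ≠ 0) (hy0 : y ≠ 0) : x + y ≠ q := by
  obtain ⟨w, hw, rfl⟩ := (mem_gens hS).mp hq
  obtain ⟨s, hs, rfl⟩ := hx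
  obtain ⟨t, ht, rfl⟩ := hy
  intro h
  exact hw.2.2 s hs t ht (by exact_mod_cast hx0) (by exact_mod_cast hy0) (by exact_mod_cast h)

/-- odd elements have an odd generator -/
theorem Gen.odd {P : ℤ → Prop} {K : Finset ℤ} (g : Gen P K) (add : ∀ x y, P x → P y → P (x + y))
    (nonneg : ∀ x, P x → 0 ≤ x) : ∀ (n : ℕ) (s : ℤ), s ≤ n → P s → Odd s →
      ∃ q ∈ K, Odd q ∧ P (s - q) := by
  intro n
  induction n with
  | zero =>
    intro s hs hP ho
    have := nonneg s hP
    have h0 : s = 0 := by push_cast at hs; omega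
    rw [h0] at ho
    exact absurd ho (by decide)
  | succ n ih =>
    intro s hs hP ho
    rcases g.gen s hP with h | ⟨q, hq, hqP⟩
    · rw [h] at ho
      exact absurd ho (by decide)
    · rcases Int.even_or_odd q with he | hodd
      · have hpos := g.pos q hq
        obtain ⟨q', hq', ho', hP'⟩ := ih (s - q) (by push_cast at hs; omega) hqP (ho.sub_even he)
        refine ⟨q', hq', ho', ?_⟩
        have h1 := add _ _ hP' (g.mem q hq)
        have e1 : s - q - q' + q = s - q' := by ring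
        rwa [e1] at h1
      · exact ⟨q, hq, hodd, hqP⟩

theorem cmb_of_gen {P : ℤ → Prop} {K : Finset ℤ} (g : Gen P K) (zero : P 0)
    (add : ∀ x y, P x → P y → P (x + y)) (nonneg : ∀ x, P x → 0 ≤ x) {a b c : ℤ}
    (hK : ∀ q, q ∈ K ↔ q = a ∨ q = b ∨ q = c) : P = Cmb a b c := by
  have ha := (hK a).mpr (Or.inl rfl)
  have hb := (hK b).mpr (Or.inr (Or.inl rfl))
  have hc := (hK c).mpr (Or.inr (Or.inr rfl))
  have mul : ∀ q, P q → ∀ n : ℕ, P (n * q) := fun q hq n => by
    induction n with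
    | zero => simpa using zero
    | succ n ih =>
      push_cast
      rw [add_mul, one_mul]
      exact add _ _ ih hq
  have mul' : ∀ q, P q → ∀ n : ℤ, 0 ≤ n → P (n * q) := fun q hq n hn => by
    obtain ⟨m, rfl⟩ := Int.eq_ofNat_of_zero_le hn
    exact mul q hq m
  have h1 : ∀ (n : ℕ) (s : ℤ), s ≤ n → P s → Cmb a b c s := by
    intro n
    induction n with
    | zero =>
      intro s hs hP
      have := nonneg s hP
      have h0 : s = 0 := by push_cast at hs; omega
      exact Cmb.mk 0 0 0 le_rfl le_rfl le_rfl (by rw [h0]; ring)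
    | succ n ih =>
      intro s hs hP
      rcases g.gen s hP with h | ⟨q, hq, hqP⟩
      · exact Cmb.mk 0 0 0 le_rfl le_rfl le_rfl (by rw [h]; ring)
      · have hpos := g.pos q hq
        obtain ⟨α, β, γ, hα, hβ, hγ, h⟩ := ih (s - q) (by push_cast at hs; omega) hqP
        rcases (hK q).mp hq with rfl | rfl | rfl
        · exact Cmb.mk (α + 1) β γ (by omega) hβ hγ (by linear_combination h)
        · exact Cmb.mk α (β + 1) γ hα (by omega) hγ (by linear_combination h)
        · exact Cmb.mk α β (γ + 1) hα hβ (by omega) (by linear_combination h)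
  funext z
  refine propext ⟨fun hz => h1 z.toNat z (Int.self_le_toNat z) hz, ?_⟩
  rintro ⟨α, β, γ, hα, hβ, hγ, rfl⟩
  exact add _ _ (add _ _ (mul' a (g.mem a ha) α hα) (mul' b (g.mem b hb) β hβ))
    (mul' c (g.mem c hc) γ hγ)

end Basic

/-! ## The half -/

section Half

variable {S : AddSubmonoid ℕ}

open Classical in
/-- the even gaps of `S` -/
noncomputable def GG (S : AddSubmonoid ℕ) : Finset ℤ :=
  ((range (cond (half S))).filter fun x => x ∉ half S).image fun x : ℕ => 2 * (x : ℤ)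

open Classical in
/-- the even elements of `S` below the largest even gap -/
noncomputable def EE (S : AddSubmonoid ℕ) : Finset ℤ :=
  ((range (cond (half S))).filter fun x => x ∈ half S).image fun x : ℕ => 2 * (x : ℤ)

theorem two_inj : Function.Injective fun x : ℕ => 2 * (x : ℤ) := fun x y h => by
  have : 2 * (x : ℤ) = 2 * (y : ℤ) := h
  omega

theorem Zm_half {x : ℕ} : Zm S (2 * (x : ℤ)) ↔ x ∈ half S := by
  rw [mem_half, ← Zm_nat]
  push_cast
  rfl

theorem mem_GG (hS : {x : ℕ | x ∉ S}.Finite) {z : ℤ} :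
    z ∈ GG S ↔ 0 < z ∧ Even z ∧ ¬ Zm S z := by
  classical
  have hT := half_fin hS
  constructor
  · intro h
    obtain ⟨x, hx, rfl⟩ := mem_image.mp h
    obtain ⟨hx1, hx2⟩ := mem_filter.mp hx
    refine ⟨?_, even_two_mul _, fun h => hx2 (Zm_half.mp h)⟩
    rcases Nat.eq_zero_or_pos x with h0 | h0
    · exact absurd (h0 ▸ (half S).zero_mem) hx2
    · omega
  · rintro ⟨h1, h2, h3⟩
    obtain ⟨n, rfl⟩ := Int.eq_ofNat_of_zero_le h1.le
    obtain ⟨x, hx⟩ := (Int.even_coe_nat n).mp h2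
    have hx' : (n : ℤ) = 2 * (x : ℤ) := by rw [hx]; push_cast; ring
    rw [hx'] at h3 ⊢
    have h4 : x ∉ half S := fun h => h3 (Zm_half.mpr h)
    refine mem_image.mpr ⟨x, mem_filter.mpr ⟨mem_range.mpr ?_, h4⟩, rfl⟩
    by_contra h
    exact h4 (cond_spec hT x (not_lt.mp h))

theorem mem_EE (hS : {x : ℕ | x ∉ S}.Finite) {e : ℤ} :
    e ∈ EE S ↔ Even e ∧ Zm S e ∧ ∃ z ∈ GG S, e < z := by
  classical
  have hT := half_fin hS
  constructor
  · intro h
    obtain ⟨x, hx, rfl⟩ := mem_image.mp h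
    obtain ⟨hx1, hx2⟩ := mem_filter.mp hx
    rw [mem_range] at hx1
    have h1 := cond_pred (S := half S) (by omega)
    have h2 : x ≠ cond (half S) - 1 := fun h => h1 (h ▸ hx2)
    refine ⟨even_two_mul _, Zm_half.mpr hx2, 2 * ((cond (half S) - 1 : ℕ) : ℤ), ?_, by omega⟩
    exact mem_image.mpr ⟨_, mem_filter.mpr ⟨mem_range.mpr (by omega), h1⟩, rfl⟩
  · rintro ⟨h1, h2, z, hz, hlt⟩
    obtain ⟨y, hy, rfl⟩ := mem_image.mp hz
    obtain ⟨hy1, -⟩ := mem_filter.mp hy
    rw [mem_range] at hy1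
    have h3 := Zm_nonneg e h2
    obtain ⟨n, rfl⟩ := Int.eq_ofNat_of_zero_le h3
    obtain ⟨x, hx⟩ := (Int.even_coe_nat n).mp h1
    have hx' : (n : ℤ) = 2 * (x : ℤ) := by rw [hx]; push_cast; ring
    rw [hx'] at h2 hlt ⊢
    exact mem_image.mpr ⟨x, mem_filter.mpr ⟨mem_range.mpr (by omega), Zm_half.mp h2⟩, rfl⟩

theorem ctx (hS : {x : ℕ | x ∉ S}.Finite) : Ctx (Zm S) (GG S) (EE S) :=
  ⟨Zm_zero, Zm_add, Zm_nonneg, Zm_big hS, fun _ => mem_GG hS, fun _ => mem_EE hS⟩

theorem card_GG (hS : {x : ℕ | x ∉ S}.Finite) : (GG S).card = genus (half S) := by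
  classical
  have hT := half_fin hS
  rw [GG, card_image_of_injective _ two_inj, genus, ← Set.ncard_coe_finset]
  congr 1
  ext x
  simp only [coe_filter, mem_range, Set.mem_setOf_eq, and_iff_right_iff_imp]
  intro h
  by_contra h'
  exact h (cond_spec hT x (not_lt.mp h'))

theorem card_sum : (GG S).card + (EE S).card = cond (half S) := by
  classical
  rw [GG, EE, card_image_of_injective _ two_inj, card_image_of_injective _ two_inj, add_comm,
    card_filter_add_card_filter_not, card_range]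

/-- the inequality of Wilf from a bound for the number of gaps -/
theorem wilf_of (hS : {x : ℕ | x ∉ S}.Finite) {m : ℕ} (hm : m + 1 ≤ embDim (half S))
    (h : (GG S).card ≤ m * (EE S).card) : Wilf (half S) := by
  have h1 := card_GG hS
  have h2 := card_sum (S := S)
  rw [Wilf, frob_eq]
  have h3 : (GG S).card ≤ (embDim (half S) - 1) * (EE S).card :=
    h.trans (Nat.mul_le_mul_right _ (by omega))
  obtain ⟨e, he⟩ := Nat.exists_eq_add_of_le hm
  rw [he] at h3 ⊢
  have e1 : m + 1 + e - 1 = m + e := by omega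
  rw [e1] at h3
  have h4 : ((GG S).card : ℤ) ≤ (m + e) * ((EE S).card : ℤ) := by exact_mod_cast h3
  have h5 : ((GG S).card : ℤ) + (EE S).card = cond (half S) := by exact_mod_cast h2
  rw [← h1, ← h5]
  push_cast
  nlinarith

/-- at most one element below the Frobenius number -/
theorem wilf_small (hS : {x : ℕ | x ∉ S}.Finite) (h : (EE S).card ≤ 1) : Wilf (half S) := by
  classical
  have hT := half_fin hS
  have h1 := card_GG hS
  have h2 := card_sum (S := S)
  rcases Nat.eq_zero_or_pos (cond (half S)) with h0 | h0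
  · have h3 : genus (half S) = 0 := by omega
    rw [Wilf, frob_eq, h3, h0]
    simp
  · have hmem0 : (0 : ℤ) ∈ EE S :=
      mem_image.mpr ⟨0, mem_filter.mpr ⟨mem_range.mpr h0, (half S).zero_mem⟩, rfl⟩
    have hsmall : ∀ x, x ∈ half S → x ≠ 0 → cond (half S) ≤ x := by
      intro x hx hx0
      by_contra hlt
      have h3 : 2 * (x : ℤ) ∈ EE S :=
        mem_image.mpr ⟨x, mem_filter.mpr ⟨mem_range.mpr (by omega), hx⟩, rfl⟩
      have := card_le_one.mp h _ hmem0 _ h3
      omega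
    have hcard : cond (half S) ≤ embDim (half S) := by
      have h3 : (Ico (cond (half S)) (2 * cond (half S)) : Set ℕ) ⊆ minGens (half S) := by
        intro x hx
        rw [coe_Ico, Set.mem_Ico] at hx
        refine ⟨cond_spec hT x hx.1, by omega, fun y hy z hz hy0 hz0 hyz => ?_⟩
        have := hsmall y hy hy0
        have := hsmall z hz hz0
        omega
      have h4 := Set.ncard_le_ncard h3 (minGens_fin hT)
      rw [Set.ncard_coe_finset, Nat.card_Ico] at h4
      unfold embDim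
      omega
    have hE : (EE S).card = 1 := le_antisymm h (card_pos.mpr ⟨0, hmem0⟩)
    refine wilf_of hS (m := cond (half S) - 1) (by omega) ?_
    rw [hE, mul_one]
    omega

/-- minimal generators of the half -/
theorem embDim_ge (hS : {x : ℕ | x ∉ S}.Finite) {M : Finset ℤ} (hM : ∀ w ∈ M, MG (Zm S) w) :
    M.card ≤ embDim (half S) := by
  classical
  have hT := half_fin hS
  have key : ∀ w ∈ M, ∃ t : ℕ, t ∈ minGens (half S) ∧ w = 2 * (t : ℤ) := by
    intro w hw
    obtain ⟨hP, hev, h0, hmin⟩ := hM w hw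
    have hw0 := Zm_nonneg w hP
    obtain ⟨n, rfl⟩ := Int.eq_ofNat_of_zero_le hw0
    obtain ⟨x, hx⟩ := (Int.even_coe_nat n).mp hev
    have hx' : (n : ℤ) = 2 * (x : ℤ) := by rw [hx]; push_cast; ring
    refine ⟨x, ⟨Zm_half.mp (hx' ▸ hP), by omega, fun y hy z hz hy0 hz0 hyz => ?_⟩, hx'⟩
    refine hmin (2 * (y : ℤ)) (2 * (z : ℤ)) (Zm_half.mpr hy) (Zm_half.mpr hz) (even_two_mul _)
      (even_two_mul _) (by omega) (by omega) ?_
    rw [hx', ← hyz]
    push_cast
    ring
  choose! t ht1 ht2 using key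
  have h1 : (M.image t : Set ℕ) ⊆ minGens (half S) := by
    intro x hx
    obtain ⟨w, hw, rfl⟩ := mem_image.mp (mem_coe.mp hx)
    exact ht1 w hw
  have h2 := Set.ncard_le_ncard h1 (minGens_fin hT)
  rw [Set.ncard_coe_finset, card_image_of_injOn] at h2
  · exact h2
  · intro w hw w' hw' h
    rw [ht2 w hw, ht2 w' hw', h]

end Half

end Pool.Agent.Helper74.WH
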