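import Pool.Agent.Helper74.WH.Odd

/-!
# Symmetric semigroups generated by odd integers
-/

set_option autoImplicit false

namespace Pool.Agent.Helper74.WH

variable {S : AddSubmonoid ℕ}

theorem pf_sym (hS : {x : ℕ | x ∉ S}.Finite) (hsym : Symmetric S) : pseudoFrob S = {frob S} := by
  ext f
  constructor
  · rintro ⟨h1, h2⟩
    obtain ⟨s, hs, hsf⟩ := hsym f h1
    by_contra hne
    have hs0 : s ≠ 0 := by
      rintro rfl
      apply hne
      rw [Set.mem_singleton_iff]
      have : (0 : ℤ) = frob S - f := by exact_mod_cast hsf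
      omega
    have h3 := h2 s hs hs0
    have h4 : f + (s : ℤ) = frob S := by omega
    rw [h4] at h3
    exact not_frob hS h3
  · rintro rfl
    refine ⟨not_frob hS, fun s hs hs0 => ?_⟩
    refine ⟨(frob S + s).toNat, ?_, ?_⟩
    · have h1 : (cond S : ℤ) ≤ frob S + s := by
        rw [frob_eq]
        omega
      exact cond_spec hS _ (by omega)
    · have h1 : (cond S : ℤ) ≤ frob S + s := by
        rw [frob_eq]
        omega
      exact Int.toNat_of_nonneg (by omega)

theorem odd_frob (hS : {x : ℕ | x ∉ S}.Finite) (hsym : Symmetric S) : Odd (frob S) := by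
  rw [← Int.not_even_iff_odd]
  rintro ⟨k, hk⟩
  by_cases h : Zm S k
  · apply not_frob hS
    rw [hk]
    exact Zm_add _ _ h h
  · have h1 := hsym k h
    rw [hk] at h1
    apply h
    have e : k + k - k = k := by ring
    rwa [e] at h1

/-- elements of a semigroup generated by odd integers -/
theorem even_ge (hgen : ∀ x ∈ minGens S, Odd x) {q : ℕ} (hq : ∀ x ∈ S, Odd x → q ≤ x) :
    ∀ n x : ℕ, x ≤ n → x ∈ S → x ≠ 0 → q ≤ x ∧ (Even x → 2 * q ≤ x) := by
  intro n
  induction n with
  | zero =>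
    intro x hx _ h0
    omega
  | succ n ih =>
    intro x hx hxS h0
    by_cases hg : x ∈ minGens S
    · have ho := hgen x hg
      refine ⟨hq x hxS ho, fun he => ?_⟩
      exact absurd he (by rwa [Nat.not_even_iff_odd])
    · have h1 : ∃ y ∈ S, ∃ z ∈ S, y ≠ 0 ∧ z ≠ 0 ∧ y + z = x := by
        by_contra h
        push_neg at h
        exact hg ⟨hxS, h0, fun y hy z hz hy0 hz0 => h y hy z hz hy0 hz0⟩
      obtain ⟨y, hy, z, hz, hy0, hz0, hyz⟩ := h1
      have h2 := (ih y (by omega) hy hy0).1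
      have h3 := (ih z (by omega) hz hz0).1
      exact ⟨by omega, fun _ => by omega⟩

/-- The half of a symmetric numerical semigroup generated by odd integers satisfies the inequality of
Wilf. -/
theorem wilf_half_sym_odd (hS : {x : ℕ | x ∉ S}.Finite) (hsym : Symmetric S)
    (hgen : ∀ x ∈ minGens S, Odd x) : Wilf (half S) := by
  classical
  have hne : {x : ℕ | x ∈ S ∧ Odd x}.Nonempty :=
    ⟨2 * cond S + 1, cond_spec hS _ (by omega), ⟨cond S, rfl⟩⟩
  set q := sInf {x : ℕ | x ∈ S ∧ Odd x} with hqdef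
  obtain ⟨hq, hqo⟩ : q ∈ S ∧ Odd q := Nat.sInf_mem hne
  have hqm : ∀ x ∈ S, Odd x → q ≤ x := fun x hx ho => Nat.sInf_le ⟨hx, ho⟩
  have hpf := pf_sym hS hsym
  refine wilf_half_odd hS (fun f hf => ?_) hq hqo ?_ (Or.inl ?_)
  · rw [hpf, Set.mem_singleton_iff] at hf
    rw [hf]
    exact odd_frob hS hsym
  · obtain ⟨hm1, hm0⟩ := mult_mem (half_fin hS)
    have h1 : 2 * mult (half S) ∈ S := mem_half.mp hm1
    have h2 := (even_ge hgen hqm _ _ le_rfl h1 (by omega)).2 (even_two_mul _)
    have h3 : {y : ℕ | y ∉ half S ∧ y < q} ⊆ Set.Ioo 0 q := by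
      rintro y ⟨hy1, hy2⟩
      refine ⟨?_, hy2⟩
      rcases Nat.eq_zero_or_pos y with rfl | h
      · exact absurd (half S).zero_mem hy1
      · exact h
    have h4 := Set.ncard_le_ncard h3 (Set.finite_Ioo 0 q)
    have h5 : (Set.Ioo 0 q).ncard = q - 0 - 1 := by
      rw [← Finset.coe_Ioo, Set.ncard_coe_finset, Nat.card_Ioo]
    omega
  · rw [hpf, Set.ncard_singleton]

end Pool.Agent.Helper74.WH
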